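import Pool.Agent.Lib.GC.Rows

/-!
# GC, row ASM: the assembly
-/

set_option autoImplicit false

namespace Pool.Agent.GC

open Finset

section cm

variable {F : Type} [Field F] [NumberField F]

theorem sigCM_zero (v : F →+* ℝ) : sigCM v (0 : Multiset (CMN.CMType F)) = 0 := by
  simp [sigCM]

theorem sigCM_add (v : F →+* ℝ) (T T' : Multiset (CMN.CMType F)) :
    sigCM v (T + T') = sigCM v T + sigCM v T' := by
  simp [sigCM]

theorem sigCM_singleton (v : F →+* ℝ) (Φ : CMN.CMType F) :
    sigCM v {Φ} = if Φ v = true then 1 else -1 := by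
  simp [sigCM]

theorem sigCM_bar (v : F →+* ℝ) (T : Multiset (CMN.CMType F)) :
    sigCM v (T.map CMN.bar) = -sigCM v T := by
  unfold sigCM
  rw [Multiset.map_map, ← Multiset.sum_map_neg]
  congr 1
  apply Multiset.map_congr rfl
  intro Φ _
  rcases h : Φ v with _ | _ <;> simp [CMN.bar, h]

theorem sigCM_eq (v : F →+* ℝ) (T : Multiset (CMN.CMType F)) :
    sigCM v T = (T.countP (fun Φ => Φ v = true) : ℂ) - (T.countP (fun Φ => Φ v = false) : ℂ) := by
  induction T using Multiset.induction_on with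
  | empty => simp [sigCM]
  | cons Φ T ih =>
    have h1 : sigCM v (Φ ::ₘ T) = (if Φ v = true then 1 else -1) + sigCM v T := by
      simp [sigCM]
    rw [h1, ih, Multiset.countP_cons, Multiset.countP_cons]
    rcases h : Φ v with _ | _
    · simp
      ring
    · simp
      ring

theorem balanced_of_sigCM {T : Multiset (CMN.CMType F)} (h : ∀ v : F →+* ℝ, sigCM v T = 0) :
    CMN.Balanced T := by
  intro v
  have h1 := h v
  rw [sigCM_eq, sub_eq_zero] at h1
  exact_mod_cast h1

end cm

section general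

variable {F : Type} [Field F] [NumberField F] {E : Type} [Field E]
  {ι : Type} [Fintype ι] [DecidableEq ι] {G : ι → Type} [∀ s, Group (G s)] [∀ s, Fintype (G s)]
  {v₁ : F →+* ℝ} {D : F} {emb : (F →+* ℝ) → (E →+* ℂ)} {g : ∀ s, List (G s)}

theorem list_sum_map_add {α β : Type*} [AddCommMonoid β] (l : List α) (f h : α → β) :
    (l.map fun a => f a + h a).sum = (l.map f).sum + (l.map h).sum := by
  induction l with
  | nil => simp
  | cons a l ih =>
    simp only [List.map_cons, List.sum_cons, ih]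
    abel

theorem sig_add (s0 : S0) (φ : E →+* ℂ) (χ χ' : ∀ s, G s → E) :
    sig g φ (χ + χ') = sig g φ χ + sig g φ χ' := by
  unfold sig
  rw [← Finset.sum_add_distrib]
  apply Finset.sum_congr rfl
  intro s _
  rw [← list_sum_map_add]
  congr 1
  apply List.map_congr_left
  intro x _
  exact (s0 (G s) E φ x).1 (χ s) (χ' s)

theorem sig_zero (s0 : S0) (φ : E →+* ℂ) : sig g φ (0 : ∀ s, G s → E) = 0 := by
  have h := sig_add (g := g) s0 φ (0 : ∀ s, G s → E) 0
  rw [add_zero] at h
  have h2 : sig g φ (0 : ∀ s, G s → E) + 0 = sig g φ (0 : ∀ s, G s → E) +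
    sig g φ (0 : ∀ s, G s → E) := by rw [add_zero]; exact h
  exact (add_left_cancel h2).symm

theorem sig1_zero (s0 : S0) {H : Type} [Group H] [Fintype H] (φ : E →+* ℂ) (x : H) :
    sig1 φ (0 : H → E) x = 0 := by
  have h := (s0 H E φ x).1 (0 : H → E) 0
  rw [add_zero] at h
  have h2 : sig1 φ (0 : H → E) x + 0 = sig1 φ (0 : H → E) x + sig1 φ (0 : H → E) x := by
    rw [add_zero]; exact h
  exact (add_left_cancel h2).symm

theorem sig_single (s0 : S0) (φ : E →+* ℂ) (s : ι) (f : G s → E) :
    sig g φ (Pi.single s f) = ((g s).map (sig1 φ f)).sum := by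
  unfold sig
  rw [Finset.sum_eq_single s]
  · rw [Pi.single_eq_same]
  · intro t _ ht
    rw [Pi.single_eq_of_ne ht]
    have h : ((g t).map (sig1 φ (0 : G t → E))) = (g t).map fun _ => (0 : ℂ) := by
      apply List.map_congr_left
      intro x _
      exact sig1_zero s0 φ x
    rw [h]
    simp
  · intro h
    exact absurd (Finset.mem_univ s) h

/-- contraction with many divisor classes -/
theorem cutT_many {χ : ∀ s, G s → E} {L : Multiset E} (S : Multiset (CMN.CMType F)) :
    ∀ T : Multiset (CMN.CMType F), IsAlg v₁ D emb g χ L (T + (S + S.map CMN.bar)) →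
      IsAlg v₁ D emb g χ L T := by
  induction S using Multiset.induction_on with
  | empty => intro T h; simpa using h
  | cons Φ S ih =>
    intro T h
    apply ih
    apply IsAlg.cutT _ _ _ Φ
    have h1 : T + (Φ ::ₘ S + (Φ ::ₘ S).map CMN.bar) =
        T + (S + S.map CMN.bar) + {Φ, CMN.bar Φ} := by
      rw [Multiset.map_cons, ← Multiset.singleton_add, ← Multiset.singleton_add (CMN.bar Φ),
        Multiset.insert_eq_cons, ← Multiset.singleton_add Φ {CMN.bar Φ}]
      abel
    rw [← h1]
    exact h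

/-- Jacobi sums: reduction of the Fermat line to CM types -/
theorem reduce (s3 : S3) {N : ℕ} (hN : N ≠ 0) (n : ℕ) : ∀ (L : Multiset E), L.card = n →
    (∀ z ∈ L, z ≠ 1 ∧ z ^ N = 1) → L.prod = 1 → ∀ (χ : ∀ s, G s → E)
    (T : Multiset (CMN.CMType F)), IsAlg v₁ D emb g χ L T →
    ∃ T' : Multiset (CMN.CMType F), IsAlg v₁ D emb g χ 0 T' ∧
      ∀ v : F →+* ℝ, sigCM v T' = sigCM v T + (L.map (dev (emb v))).sum := by
  induction n using Nat.strong_induction_on with
  | _ n ih =>
    intro L hL hz hp χ T h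
    have hz0 : ∀ z ∈ L, z ≠ 0 := by
      rintro z hz' rfl
      have := (hz 0 hz').2
      rw [zero_pow hN] at this
      exact zero_ne_one this
    rcases Multiset.empty_or_exists_mem L with rfl | ⟨l, hl⟩
    · exact ⟨T, h, fun v => by simp⟩
    obtain ⟨L1, rfl⟩ := Multiset.exists_cons_of_mem hl
    rcases Multiset.empty_or_exists_mem L1 with rfl | ⟨m, hm⟩
    · exfalso
      rw [Multiset.prod_cons, Multiset.prod_zero, mul_one] at hp
      exact (hz l hl).1 hp
    obtain ⟨L2, rfl⟩ := Multiset.exists_cons_of_mem hm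
    have hm' : m ∈ l ::ₘ m ::ₘ L2 := Multiset.mem_cons_of_mem hm
    have hl1 := hz l hl
    have hm1 := hz m hm'
    have hl0 := hz0 l hl
    have hm0 := hz0 m hm'
    rw [Multiset.card_cons, Multiset.card_cons] at hL
    rw [Multiset.prod_cons, Multiset.prod_cons, ← mul_assoc] at hp
    by_cases hlm : l * m = 1
    · -- cancel the two
      have hml : m = l⁻¹ := (inv_eq_of_mul_eq_one_right hlm).symm
      have h1 : IsAlg v₁ D emb g χ L2 T := by
        apply IsAlg.cutL _ _ _ l hl1.1
        have h2 : L2 + {l, l⁻¹} = l ::ₘ m ::ₘ L2 := by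
          rw [hml, Multiset.insert_eq_cons, ← Multiset.singleton_add l {l⁻¹},
            ← Multiset.singleton_add l, ← Multiset.singleton_add l⁻¹]
          abel
        rw [h2]
        exact h
      obtain ⟨T', hT', hs⟩ := ih L2.card (by omega) L2 rfl
        (fun z hz' => hz z (Multiset.mem_cons_of_mem (Multiset.mem_cons_of_mem hz')))
        (by rw [hlm, one_mul] at hp; exact hp) χ T h1
      refine ⟨T', hT', fun v => ?_⟩
      rw [hs v, Multiset.map_cons, Multiset.map_cons, Multiset.sum_cons, Multiset.sum_cons, hml,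
        (s3 E (emb v) N hN).1 l hl1.2]
      ring
    · -- a Jacobi line
      have hli : l⁻¹ ≠ 1 := fun h => hl1.1 (inv_eq_one.mp h)
      have hmi : m⁻¹ ≠ 1 := fun h => hm1.1 (inv_eq_one.mp h)
      have hlmi : l⁻¹ * m⁻¹ ≠ 1 := by
        rw [← mul_inv]
        exact fun h => hlm (inv_eq_one.mp h)
      have hliN : l⁻¹ ^ N = 1 := by rw [inv_pow, hl1.2, inv_one]
      have hmiN : m⁻¹ ^ N = 1 := by rw [inv_pow, hm1.2, inv_one]
      have h2 := IsAlg.jac (v₁ := v₁) (D := D) (emb := emb) (g := g) N l⁻¹ m⁻¹ hN hliN hmiN hli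
        hmi hlmi
      have h3 := IsAlg.add _ _ _ _ _ _ h h2
      rw [add_zero] at h3
      have h4 : l ::ₘ m ::ₘ L2 + {l⁻¹, m⁻¹, (l⁻¹ * m⁻¹)⁻¹} =
          ((l * m) ::ₘ L2) + {m, m⁻¹} + {l, l⁻¹} := by
        have h5 : (l⁻¹ * m⁻¹)⁻¹ = l * m := by
          rw [mul_inv, inv_inv, inv_inv]
        rw [h5]
        simp only [Multiset.insert_eq_cons]
        simp only [← Multiset.singleton_add]
        abel
      rw [h4] at h3
      have h5 := IsAlg.cutL _ _ _ m hm1.1 (IsAlg.cutL _ _ _ l hl1.1 h3)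
      obtain ⟨T', hT', hs⟩ := ih ((l * m) ::ₘ L2).card
        (by rw [Multiset.card_cons]; omega) ((l * m) ::ₘ L2) rfl
        (by
          intro z hz'
          rcases Multiset.mem_cons.mp hz' with rfl | hz'
          · exact ⟨hlm, by rw [mul_pow, hl1.2, hm1.2, one_mul]⟩
          · exact hz z (Multiset.mem_cons_of_mem (Multiset.mem_cons_of_mem hz')))
        (by rw [Multiset.prod_cons]; exact hp) χ _ h5
      refine ⟨T', hT', fun v => ?_⟩
      rw [hs v, sigCM_add, sigCM_singleton]
      have h6 := (s3 E (emb v) N hN).2 l⁻¹ m⁻¹ hliN hmiN hli hmi hlmi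
      rw [← mul_inv, (s3 E (emb v) N hN).1 l hl1.2, (s3 E (emb v) N hN).1 m hm1.2,
        (s3 E (emb v) N hN).1 (l * m) (by rw [mul_pow, hl1.2, hm1.2, one_mul])] at h6
      have h7 : (if J emb l⁻¹ m⁻¹ v = true then (1 : ℂ) else -1) =
          if ang (emb v l⁻¹) + ang (emb v m⁻¹) < 1 then 1 else -1 := by
        simp only [J, decide_eq_true_eq]
      rw [h7, Multiset.map_cons, Multiset.sum_cons, Multiset.map_cons, Multiset.map_cons,
        Multiset.sum_cons, Multiset.sum_cons]
      linear_combination h6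

/-- what we prove for virtual characters -/
def Good (v₁ : F →+* ℝ) (D : F) (emb : (F →+* ℝ) → (E →+* ℂ)) (g : ∀ s, List (G s))
    (χ : ∀ s, G s → E) : Prop :=
  ∃ T, IsAlg v₁ D emb g χ 0 T ∧ Balanced emb g χ T

theorem Good.add (s0 : S0) {χ χ' : ∀ s, G s → E} (h : Good v₁ D emb g χ)
    (h' : Good v₁ D emb g χ') : Good v₁ D emb g (χ + χ') := by
  obtain ⟨T, h1, h2⟩ := h
  obtain ⟨T', h3, h4⟩ := h'
  refine ⟨T + T', ?_, fun v => ?_⟩
  · have h5 := IsAlg.add _ _ _ _ _ _ h1 h3
    rwa [add_zero] at h5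
  · rw [sig_add s0, sigCM_add]
    linear_combination h2 v + h4 v

theorem alg_zero : CMN.Alg v₁ D (0 : Multiset (CMN.CMType F)) :=
  Or.inl ⟨0, by simp⟩

theorem bal_zero : CMN.Balanced (0 : Multiset (CMN.CMType F)) := by
  intro v
  simp

theorem Good.zero (s0 : S0) : Good v₁ D emb g 0 :=
  ⟨0, IsAlg.ball 0 bal_zero alg_zero, fun v => by rw [sig_zero s0, sigCM_zero, add_zero]⟩

theorem isChar_zero {H : Type} [Group H] : IsChar (0 : H → E) :=
  ⟨0, 1, fun g => by simp⟩

theorem dual_zero {H : Type} [Group H] : dual (0 : H → E) = 0 := rfl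

theorem dual_single (s : ι) (f : G s → E) :
    (fun t => dual ((Pi.single s f : ∀ s, G s → E) t)) = Pi.single s (dual f) := by
  funext t
  by_cases h : t = s
  · subst h
    rw [Pi.single_eq_same, Pi.single_eq_same]
  · rw [Pi.single_eq_of_ne h, Pi.single_eq_of_ne h, dual_zero]

theorem isChar_single (s : ι) (f : G s → E) (hf : IsChar f) (t : ι) :
    IsChar ((Pi.single s f : ∀ s, G s → E) t) := by
  by_cases h : t = s
  · subst h
    rw [Pi.single_eq_same]
    exact hf
  · rw [Pi.single_eq_of_ne h]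
    exact isChar_zero

theorem dual_sig (s0 : S0) (φ : E →+* ℂ) (χ : ∀ s, G s → E) :
    sig g φ (fun s => dual (χ s)) = -sig g φ χ := by
  unfold sig
  rw [← Finset.sum_neg_distrib]
  apply Finset.sum_congr rfl
  intro s _
  have h : ∀ l : List (G s), (l.map (sig1 φ (dual (χ s)))).sum = -(l.map (sig1 φ (χ s))).sum := by
    intro l
    induction l with
    | nil => simp
    | cons a l ih =>
      rw [List.map_cons, List.sum_cons, ih, (s0 (G s) E φ a).2, List.map_cons, List.sum_cons]
      ring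
  exact h (g s)

/-- cancelling a character and its dual -/
theorem Good.cut (s0 : S0) {χ σ : ∀ s, G s → E} (hσ : ∀ s, IsChar (σ s))
    (h : Good v₁ D emb g (χ + σ + fun s => dual (σ s))) : Good v₁ D emb g χ := by
  obtain ⟨T, h1, h2⟩ := h
  refine ⟨T, IsAlg.cut _ σ _ _ hσ h1, fun v => ?_⟩
  have h3 := h2 v
  rw [sig_add s0, sig_add s0, dual_sig s0] at h3
  linear_combination h3

theorem sigCM_of_balanced {T : Multiset (CMN.CMType F)} (h : CMN.Balanced T) (v : F →+* ℝ) :
    sigCM v T = 0 := by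
  rw [sigCM_eq, h v, sub_self]

/-- all triples in the class are balanced -/
theorem sound (s0 : S0) (s1 : S1) (s2 : S2) (s3 : S3)
    (hζ : ∀ s, ∃ ζ : E, IsPrimitiveRoot ζ (Fintype.card (G s)))
    (hg : ∀ s, (g s).prod ∈ commutator (G s)) {χ : ∀ s, G s → E} {L : Multiset E}
    {T : Multiset (CMN.CMType F)} (h : IsAlg v₁ D emb g χ L T) :
    (∀ z ∈ L, ∃ N : ℕ, N ≠ 0 ∧ z ^ N = 1) ∧
    ∀ v : F →+* ℝ, sig g (emb v) χ + (L.map (dev (emb v))).sum + sigCM v T = 0 := by
  induction h with
  | sym s H ψ =>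
    obtain ⟨hprod, hroots⟩ := s2 (G s) E H ψ (g s) (hg s)
    have hN : Fintype.card (G s) ≠ 0 := Fintype.card_ne_zero
    refine ⟨?_, fun v => ?_⟩
    · intro z hz
      obtain ⟨y, hy, rfl⟩ := Multiset.mem_map.mp hz
      exact ⟨_, hN, by rw [inv_pow, (hroots y hy).2, inv_one]⟩
    · have h1 : (((locs H ψ (g s)).map fun x => x⁻¹).map (dev (emb v))).sum =
          -((locs H ψ (g s)).map (dev (emb v))).sum := by
        rw [Multiset.map_map, ← Multiset.sum_map_neg]
        congr 1
        apply Multiset.map_congr rfl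
        intro z hz
        exact (s3 E (emb v) _ hN).1 z (hroots z hz).2
      rw [h1, sigCM_zero, sig_single s0, s1 (G s) E (hζ s) H ψ (emb v) (g s)]
      ring
  | jac N l m hN hl hm hl1 hm1 hlm =>
    have hlmN : (l * m) ^ N = 1 := by rw [mul_pow, hl, hm, one_mul]
    refine ⟨?_, fun v => ?_⟩
    · intro z hz
      simp only [Multiset.insert_eq_cons, Multiset.mem_cons, Multiset.mem_singleton] at hz
      rcases hz with rfl | rfl | rfl
      · exact ⟨N, hN, hl⟩
      · exact ⟨N, hN, hm⟩
      · exact ⟨N, hN, by rw [inv_pow, hlmN, inv_one]⟩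
    · have h6 := (s3 E (emb v) N hN).2 l m hl hm hl1 hm1 hlm
      have h7 : (if J emb l m v = true then (1 : ℂ) else -1) =
          if ang (emb v l) + ang (emb v m) < 1 then 1 else -1 := by
        simp only [J, decide_eq_true_eq]
      rw [sig_zero s0, sigCM_singleton, h7, Multiset.insert_eq_cons, Multiset.insert_eq_cons,
        Multiset.map_cons, Multiset.sum_cons, Multiset.map_cons, Multiset.sum_cons,
        Multiset.map_singleton, Multiset.sum_singleton, (s3 E (emb v) N hN).1 (l * m) hlmN]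
      linear_combination h6
  | ball T hb hT =>
    refine ⟨by simp, fun v => ?_⟩
    rw [sig_zero s0, sigCM_of_balanced hb]
    simp
  | add χ χ' L L' T T' _ _ h1 h2 =>
    refine ⟨?_, fun v => ?_⟩
    · intro z hz
      rcases Multiset.mem_add.mp hz with hz | hz
      · exact h1.1 z hz
      · exact h2.1 z hz
    · rw [sig_add s0, sigCM_add, Multiset.map_add, Multiset.sum_add]
      linear_combination h1.2 v + h2.2 v
  | cut χ σ L T _ _ h1 =>
    refine ⟨h1.1, fun v => ?_⟩
    have h3 := h1.2 v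
    rw [sig_add s0, sig_add s0, dual_sig s0] at h3
    linear_combination h3
  | cutL χ L T l hl _ h1 =>
    refine ⟨fun z hz => h1.1 z (Multiset.mem_add.mpr (Or.inl hz)), fun v => ?_⟩
    have h3 := h1.2 v
    obtain ⟨N, hN, hlN⟩ := h1.1 l (Multiset.mem_add.mpr (Or.inr (by simp)))
    rw [Multiset.map_add, Multiset.sum_add, Multiset.insert_eq_cons, Multiset.map_cons,
      Multiset.sum_cons, Multiset.map_singleton, Multiset.sum_singleton,
      (s3 E (emb v) N hN).1 l hlN] at h3
    linear_combination h3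
  | cutT χ L T Φ _ h1 =>
    refine ⟨h1.1, fun v => ?_⟩
    have h3 := h1.2 v
    have h4 : sigCM v ({Φ, CMN.bar Φ} : Multiset (CMN.CMType F)) = 0 := by
      rw [Multiset.insert_eq_cons, ← Multiset.singleton_add, sigCM_add, sigCM_singleton,
        sigCM_singleton]
      rcases h : Φ v with _ | _ <;> simp [CMN.bar, h]
    rw [sigCM_add, h4, add_zero] at h3
    exact h3

end general

theorem final_of : ASM := by
  intro brauer du s0 s1 s2 s3 cmn F _ _ _ v₁ D hDi hD E _ _ δ hδ hEF emb hemb hembδ ι _ _ G _ _ hζ g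
    hg χ hχ T
  refine ⟨fun h v => by simpa using (sound s0 s1 s2 s3 hζ hg h).2 v, fun hT => ?_⟩
  have hE : CharZero E := by
    have φ : E →+* ℂ := emb v₁
    exact (RingHom.charZero_iff φ.injective).mpr inferInstance
  -- monomial characters
  have hmono : ∀ (s : ι) (f : G s → E), f ∈ Mono (G s) E →
      Good v₁ D emb g (Pi.single s f) := by
    rintro s f ⟨H, ψ, rfl⟩
    obtain ⟨hprod, hroots⟩ := s2 (G s) E H ψ (g s) (hg s)
    have hN : Fintype.card (G s) ≠ 0 := Fintype.card_ne_zero
    obtain ⟨T', hT', hs⟩ := reduce (v₁ := v₁) (D := D) (emb := emb) (g := g) s3 hN _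
      ((locs H ψ (g s)).map (·⁻¹)) rfl
      (by
        intro z hz
        obtain ⟨y, hy, rfl⟩ := Multiset.mem_map.mp hz
        refine ⟨fun h => (hroots y hy).1 (inv_eq_one.mp h), ?_⟩
        rw [inv_pow, (hroots y hy).2, inv_one])
      (by rw [Multiset.prod_map_inv, Multiset.map_id', hprod, inv_one]) _ 0
      (IsAlg.sym s H ψ)
    refine ⟨T', hT', fun v => ?_⟩
    rw [hs v, sigCM_zero, zero_add, sig_single s0, s1 (G s) E (hζ s) H ψ (emb v) (g s),
      Multiset.map_map]
    have h1 : ((locs H ψ (g s)).map (dev (emb v) ∘ fun x => x⁻¹)).sum =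
        -((locs H ψ (g s)).map (dev (emb v))).sum := by
      rw [← Multiset.sum_map_neg]
      congr 1
      apply Multiset.map_congr rfl
      intro z hz
      exact (s3 E (emb v) _ hN).1 z (hroots z hz).2
    rw [h1, add_neg_cancel]
  have hneg : ∀ (s : ι) (f : G s → E), f ∈ Mono (G s) E →
      Good v₁ D emb g (-Pi.single s f) := by
    rintro s f ⟨H, ψ, rfl⟩
    obtain ⟨h1, h2⟩ := du (G s) E H ψ
    apply Good.cut s0 (σ := Pi.single s (ind H ψ)) (isChar_single s _ h1)
    rw [dual_single, neg_add_cancel, zero_add]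
    exact hmono s _ h2
  -- virtual characters
  have hvir : ∀ (s : ι) (f : G s → E), f ∈ Vir (G s) E →
      Good v₁ D emb g (Pi.single s f) ∧ Good v₁ D emb g (-Pi.single s f) := by
    intro s f hf
    unfold Vir at hf
    induction hf using AddSubgroup.closure_induction with
    | mem x hx => exact ⟨hmono s x hx, hneg s x hx⟩
    | zero =>
      rw [Pi.single_zero, neg_zero]
      exact ⟨Good.zero s0, Good.zero s0⟩
    | add x y _ _ hx hy =>
      rw [Pi.single_add, neg_add]
      exact ⟨hx.1.add s0 hy.1, hx.2.add s0 hy.2⟩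
    | neg x _ hx =>
      rw [Pi.single_neg, neg_neg]
      exact ⟨hx.2, hx.1⟩
  have hall : ∀ S : Finset ι, Good v₁ D emb g (∑ s ∈ S, Pi.single s (χ s)) := by
    intro S
    induction S using Finset.induction_on with
    | empty => rw [Finset.sum_empty]; exact Good.zero s0
    | insert a S ha ih =>
      rw [Finset.sum_insert ha]
      exact (hvir a (χ a) (brauer (G a) E (hζ a) (χ a) (hχ a))).1.add s0 ih
  have hgood : Good v₁ D emb g χ := by
    have h := hall Finset.univ
    rwa [Finset.univ_sum_single] at h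
  obtain ⟨T1, h1, h2⟩ := hgood
  have h3 : CMN.Balanced (T + T1.map CMN.bar) := by
    apply balanced_of_sigCM
    intro v
    rw [sigCM_add, sigCM_bar]
    linear_combination hT v - h2 v
  have h4 := IsAlg.ball (v₁ := v₁) (D := D) (emb := emb) (g := g) _ h3
    (cmn F v₁ D hDi hD _ h3)
  have h5 := IsAlg.add _ _ _ _ _ _ h1 h4
  rw [add_zero, add_zero] at h5
  apply cutT_many T1
  have h6 : T + (T1 + T1.map CMN.bar) = T1 + (T + T1.map CMN.bar) := by abel
  rw [h6]
  exact h5

end Pool.Agent.GC
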