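import Mathlib

/-!
Solomon's induction theorem: for a finite group `G` the constant function `1` is an integral
linear combination of the permutation characters `pc H` of `G` on `G/H`, `H` hyperelementary.
-/

namespace Pool.Agent.GC

open MulAction

variable {G : Type*} [Group G]

/-- `H` is `p`-hyperelementary: it has a cyclic normal subgroup `⟨c⟩` of order prime to `p` with
`H/⟨c⟩` a `p`-group. -/
def IsHE (p : ℕ) (H : Subgroup G) : Prop :=
  ∃ c : G, c ∈ H ∧ (∀ h ∈ H, h * c * h⁻¹ ∈ Subgroup.zpowers c) ∧ Nat.Coprime (orderOf c) p ∧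
    ∀ h ∈ H, ∃ k : ℕ, h ^ p ^ k ∈ Subgroup.zpowers c

/-- hyperelementary -/
def IsHyp (H : Subgroup G) : Prop := ∃ p : ℕ, p.Prime ∧ IsHE p H

theorem conj_zpow_mem {c h : G} (hh : h * c * h⁻¹ ∈ Subgroup.zpowers c) {y : G}
    (hy : y ∈ Subgroup.zpowers c) : h * y * h⁻¹ ∈ Subgroup.zpowers c := by
  obtain ⟨j, rfl⟩ := Subgroup.mem_zpowers_iff.1 hy
  rw [← conj_zpow]
  exact Subgroup.zpow_mem _ hh j

theorem IsHE.mono {p : ℕ} {H K : Subgroup G} (h : IsHE p H) (hK : K ≤ H) : IsHE p K := by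
  obtain ⟨c, hc, hn, hco, hp⟩ := h
  have hcyc : IsCyclic (↥(K ⊓ Subgroup.zpowers c)) :=
    Subgroup.isCyclic_of_le inf_le_right
  obtain ⟨c', hc'⟩ := (Subgroup.isCyclic_iff_exists_zpowers_eq_top _).1 hcyc
  have hc'm : c' ∈ K ⊓ Subgroup.zpowers c := by
    rw [← hc']; exact Subgroup.mem_zpowers c'
  refine ⟨c', hc'm.1, fun k hk => ?_, ?_, fun k hk => ?_⟩
  · rw [hc']
    exact ⟨K.mul_mem (K.mul_mem hk hc'm.1) (K.inv_mem hk),
      conj_zpow_mem (hn k (hK hk)) hc'm.2⟩
  · exact Nat.Coprime.coprime_dvd_left (orderOf_dvd_of_mem_zpowers hc'm.2) hco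
  · obtain ⟨j, hj⟩ := hp k (hK hk)
    refine ⟨j, ?_⟩
    rw [hc']
    exact ⟨K.pow_mem hk _, hj⟩

theorem IsHE.conj {p : ℕ} {H K : Subgroup G} (h : IsHE p H) (a : G)
    (hK : ∀ x, x ∈ K ↔ a⁻¹ * x * a ∈ H) : IsHE p K := by
  obtain ⟨c, hc, hn, hco, hp⟩ := h
  have key : ∀ x : G, x ∈ Subgroup.zpowers (a * c * a⁻¹) ↔ a⁻¹ * x * a ∈ Subgroup.zpowers c := by
    intro x
    simp only [Subgroup.mem_zpowers_iff]
    constructor
    · rintro ⟨j, rfl⟩
      refine ⟨j, ?_⟩
      rw [conj_zpow]; group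
    · rintro ⟨j, hj⟩
      refine ⟨j, ?_⟩
      rw [conj_zpow, hj]; group
  refine ⟨a * c * a⁻¹, ?_, fun k hk => ?_, ?_, fun k hk => ?_⟩
  · rw [hK]; convert hc using 1; group
  · rw [key]
    have := hn _ ((hK k).1 hk)
    convert this using 1; group
  · rw [show orderOf (a * c * a⁻¹) = orderOf c from orderOf_injective (MulAut.conj a).toMonoidHom
      (MulAut.conj a).injective c]
    exact hco
  · obtain ⟨j, hj⟩ := hp _ ((hK k).1 hk)
    refine ⟨j, ?_⟩
    rw [key]
    convert hj using 1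
    have : ∀ n : ℕ, (a⁻¹ * k * a) ^ n = a⁻¹ * k ^ n * a := by
      intro n
      have := conj_pow (i := n) (a := a⁻¹) (b := k)
      simpa using this
    rw [this]

theorem IsHyp.of_conj_le {H K : Subgroup G} (h : IsHyp H) (a : G)
    (hK : ∀ x ∈ K, a⁻¹ * x * a ∈ H) : IsHyp K := by
  obtain ⟨p, hp, hH⟩ := h
  refine ⟨p, hp, ?_⟩
  let K' : Subgroup G := H.comap (MulAut.conj a⁻¹).toMonoidHom
  have hK' : ∀ x, x ∈ K' ↔ a⁻¹ * x * a ∈ H := by
    intro x
    simp [K', Subgroup.mem_comap]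
  exact (hH.conj a hK').mono fun x hx => (hK' x).2 (hK x hx)

/-- The permutation character of `G` on `X`. -/
noncomputable def pcX (X : Type*) [MulAction G X] (g : G) : ℤ :=
  (Nat.card {x : X // g • x = x} : ℤ)

/-- The permutation character of `G` on `G/H`. -/
noncomputable def pc (H : Subgroup G) (g : G) : ℤ := pcX (G ⧸ H) g

/-- The additive group spanned by the permutation characters on `G/H`, `H` hyperelementary. -/
def R (G : Type*) [Group G] : AddSubgroup (G → ℤ) :=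
  AddSubgroup.closure {f | ∃ H : Subgroup G, IsHyp H ∧ f = pc H}

theorem pc_stab {X : Type*} [MulAction G X] (x : X) (g : G) :
    pc (stabilizer G x) g = (Nat.card {y : X // y ∈ orbit G x ∧ g • y = y} : ℤ) := by
  unfold pc pcX
  congr 1
  refine Nat.card_congr (Equiv.ofBijective (fun z => ⟨ofQuotientStabilizer G x z.1, ?_, ?_⟩)
    ⟨?_, ?_⟩)
  · exact ofQuotientStabilizer_mem_orbit G x z.1
  · rw [← ofQuotientStabilizer_smul, z.2]
  · intro y z hyz
    exact Subtype.ext (injective_ofQuotientStabilizer G x (by simpa using hyz))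
  · rintro ⟨y, ⟨a, rfl⟩, hy⟩
    refine ⟨⟨(a : G ⧸ stabilizer G x), ?_⟩, ?_⟩
    · apply injective_ofQuotientStabilizer G x
      rw [ofQuotientStabilizer_smul]
      exact hy
    · rfl

theorem pcX_mem (X : Type*) [Finite X] [MulAction G X] (h : ∀ x : X, IsHyp (stabilizer G x)) :
    (pcX X : G → ℤ) ∈ R G := by
  classical
  have := Fintype.ofFinite X
  have : Fintype (Quotient (orbitRel G X)) := Fintype.ofFinite _
  have key : (pcX X : G → ℤ) = ∑ w : Quotient (orbitRel G X), pc (stabilizer G w.out) := by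
    funext g
    rw [Finset.sum_apply]
    have h1 : pcX X g = ∑ y : X, if g • y = y then (1 : ℤ) else 0 := by
      unfold pcX
      rw [Nat.card_eq_fintype_card, Fintype.card_subtype, Finset.sum_boole]
    rw [h1, ← Finset.sum_fiberwise (s := Finset.univ)
      (g := fun y : X => (Quotient.mk (orbitRel G X) y))]
    refine Finset.sum_congr rfl fun w _ => ?_
    rw [pc_stab, Nat.card_eq_fintype_card, Fintype.card_subtype, Finset.sum_boole]
    congr 2
    ext y
    simp only [Finset.mem_filter, Finset.mem_univ, true_and]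
    refine and_congr ?_ Iff.rfl
    rw [← orbitRel_apply]
    constructor
    · rintro rfl
      exact Quotient.exact (Quotient.out_eq (Quotient.mk (orbitRel G X) y)).symm
    · intro hy
      rw [← Quotient.out_eq w]
      exact Quotient.sound hy
  rw [key]
  exact AddSubgroup.sum_mem _ fun w _ => AddSubgroup.subset_closure ⟨_, h _, rfl⟩

theorem stab_quot (H : Subgroup G) (a : G) {x : G}
    (hx : x ∈ stabilizer G (a : G ⧸ H)) : a⁻¹ * x * a ∈ H := by
  rw [mem_stabilizer_iff] at hx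
  have : ((x * a : G) : G ⧸ H) = (a : G ⧸ H) := hx
  rw [eq_comm, QuotientGroup.eq] at this
  rwa [← mul_assoc] at this

theorem pc_mul_mem [Finite G] {H K : Subgroup G} (hH : IsHyp H) : pc H * pc K ∈ R G := by
  have h1 : pc H * pc K = pcX ((G ⧸ H) × (G ⧸ K)) := by
    funext g
    unfold pc pcX
    rw [Pi.mul_apply, ← Nat.cast_mul, ← Nat.card_prod]
    congr 1
    refine Nat.card_congr ⟨fun z => ⟨(z.1.1, z.2.1), Prod.ext z.1.2 z.2.2⟩,
      fun z => (⟨z.1.1, congrArg Prod.fst z.2⟩, ⟨z.1.2, congrArg Prod.snd z.2⟩),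
      fun z => rfl, fun z => rfl⟩
  rw [h1]
  refine pcX_mem _ ?_
  rintro ⟨x, y⟩
  obtain ⟨a, rfl⟩ := QuotientGroup.mk_surjective x
  refine hH.of_conj_le a fun z hz => stab_quot H a ?_
  rw [mem_stabilizer_iff] at hz ⊢
  exact congrArg Prod.fst hz

theorem R_mul [Finite G] {f g : G → ℤ} (hf : f ∈ R G) (hg : g ∈ R G) : f * g ∈ R G := by
  induction hf using AddSubgroup.closure_induction with
  | mem x hx =>
    obtain ⟨H, hH, rfl⟩ := hx
    induction hg using AddSubgroup.closure_induction with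
    | mem y hy =>
      obtain ⟨K, hK, rfl⟩ := hy
      exact pc_mul_mem hH
    | zero => rw [mul_zero]; exact AddSubgroup.zero_mem _
    | add a b _ _ ha hb => rw [mul_add]; exact AddSubgroup.add_mem _ ha hb
    | neg a _ ha => rw [mul_neg]; exact AddSubgroup.neg_mem _ ha
  | zero => rw [zero_mul]; exact AddSubgroup.zero_mem _
  | add a b _ _ ha hb => rw [add_mul]; exact AddSubgroup.add_mem _ ha hb
  | neg a _ ha => rw [neg_mul]; exact AddSubgroup.neg_mem _ ha

/-- Banaschewski's lemma. -/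
theorem banaschewski {X : Type*} [Finite X] (S : AddSubgroup (X → ℤ))
    (hmul : ∀ f ∈ S, ∀ g ∈ S, f * g ∈ S)
    (h : ∀ x : X, ∀ p : ℕ, p.Prime → ∃ f ∈ S, ¬ (p : ℤ) ∣ f x) : (1 : X → ℤ) ∈ S := by
  classical
  have := Fintype.ofFinite X
  -- evaluation at `x` is onto
  have h1 : ∀ x : X, ∃ f ∈ S, f x = 1 := by
    intro x
    let I : AddSubgroup ℤ := S.map (Pi.evalAddMonoidHom (fun _ : X => ℤ) x)
    obtain ⟨n, hn⟩ := Int.subgroup_cyclic I
    have hI : ∀ z, z ∈ I ↔ (n : ℤ) ∣ z := by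
      intro z
      rw [hn, ← AddSubgroup.zmultiples_eq_closure, Int.mem_zmultiples_iff]
    have hun : n.natAbs = 1 := by
      by_contra hne
      obtain ⟨p, hp, hpn⟩ := Nat.exists_prime_and_dvd hne
      obtain ⟨f, hf, hfx⟩ := h x p hp
      apply hfx
      have : f x ∈ I := ⟨f, hf, rfl⟩
      exact (Int.natCast_dvd.2 hpn).trans ((hI _).1 this)
    have : (1 : ℤ) ∈ I := (hI 1).2 (by
      rcases Int.natAbs_eq n with h | h <;> rw [h, hun] <;> simp)
    obtain ⟨f, hf, hfx⟩ := this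
    exact ⟨f, hf, hfx⟩
  choose f hf hfx using h1
  have h2 : ∀ s : Finset X, 1 - ∏ x ∈ s, (1 - f x) ∈ S := by
    intro s
    induction s using Finset.induction_on with
    | empty => simp [S.zero_mem]
    | insert a s ha ih =>
      rw [Finset.prod_insert ha]
      have : 1 - (1 - f a) * ∏ x ∈ s, (1 - f x) =
          (1 - ∏ x ∈ s, (1 - f x)) + (f a - f a * (1 - ∏ x ∈ s, (1 - f x))) := by ring
      rw [this]
      exact S.add_mem ih (S.sub_mem (hf a) (hmul _ (hf a) _ ih))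
  have h3 := h2 Finset.univ
  have h4 : ∏ x : X, (1 - f x) = 0 := by
    funext y
    rw [Finset.prod_apply]
    refine Finset.prod_eq_zero (Finset.mem_univ y) ?_
    simp [hfx]
  rwa [h4, sub_zero] at h3

/-- For every `g` and every prime `p` some hyperelementary `H` has `p ∤ pc H g`. -/
theorem exists_hyp [Finite G] (g : G) (p : ℕ) (hp : p.Prime) :
    ∃ H : Subgroup G, IsHyp H ∧ ¬ (p : ℤ) ∣ pc H g := by
  classical
  have : Fact p.Prime := ⟨hp⟩
  obtain ⟨k, m, hm, hkm⟩ := Nat.exists_eq_pow_mul_and_not_dvd (orderOf_pos g).ne' p hp.ne_one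
  set c : G := g ^ p ^ k with hc
  have hoc : orderOf c = m := by
    rw [hc, orderOf_pow_of_dvd (pow_ne_zero _ hp.ne_zero) (hkm ▸ dvd_mul_right _ _), hkm,
      Nat.mul_div_cancel_left _ (pow_pos hp.pos _)]
  have hmp : Nat.Coprime m p := ((Nat.Prime.coprime_iff_not_dvd hp).2 hm).symm
  set C : Subgroup G := Subgroup.zpowers c with hC
  set N : Subgroup G := Subgroup.normalizer (C : Set G) with hN
  have hCN : C ≤ N := Subgroup.le_normalizer
  have hgc : g * c * g⁻¹ = c := by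
    rw [hc]; exact mul_inv_eq_of_eq_mul ((Commute.refl g).pow_right _).eq
  have hgN : g ∈ N := by
    refine Subgroup.mem_normalizer_fintype (S := (C : Set G)) fun n hn => ?_
    exact conj_zpow_mem (c := c) (by rw [hgc]; exact Subgroup.mem_zpowers c) hn
  let C' : Subgroup N := C.subgroupOf N
  have : C'.Normal := Subgroup.normal_in_normalizer
  let gb : N ⧸ C' := QuotientGroup.mk' C' ⟨g, hgN⟩
  have hgb : gb ^ p ^ k = 1 := by
    change QuotientGroup.mk' C' ⟨g, hgN⟩ ^ p ^ k = 1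
    rw [← map_pow, QuotientGroup.mk'_apply, QuotientGroup.eq_one_iff]
    change ((⟨g, hgN⟩ ^ p ^ k : N) : G) ∈ C
    exact Subgroup.mem_zpowers c
  have hpg : IsPGroup p (Subgroup.zpowers gb) := by
    rintro ⟨x, hx⟩
    obtain ⟨j, rfl⟩ := Subgroup.mem_zpowers_iff.1 hx
    refine ⟨k, Subtype.ext ?_⟩
    change (gb ^ j) ^ p ^ k = 1
    rw [← zpow_natCast, ← zpow_mul, mul_comm, zpow_mul, zpow_natCast, hgb, one_zpow]
  obtain ⟨P, hP⟩ := hpg.exists_le_sylow
  let H' : Subgroup N := (P : Subgroup (N ⧸ C')).comap (QuotientGroup.mk' C')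
  let H : Subgroup G := H'.map N.subtype
  have hmemH : ∀ x : G, x ∈ H ↔ ∃ hx : x ∈ N, QuotientGroup.mk' C' ⟨x, hx⟩ ∈ (P : Subgroup _) := by
    intro x
    constructor
    · rintro ⟨y, hy, rfl⟩
      exact ⟨y.2, hy⟩
    · rintro ⟨hx, hy⟩
      exact ⟨⟨x, hx⟩, hy, rfl⟩
  have hmk1 : ∀ (x : G) (hx : x ∈ N), QuotientGroup.mk' C' ⟨x, hx⟩ = 1 → x ∈ C := by
    intro x hx h
    rw [QuotientGroup.mk'_apply, QuotientGroup.eq_one_iff] at h
    exact h
  have hPpow : ∀ y ∈ (P : Subgroup (N ⧸ C')), ∃ j : ℕ, y ^ p ^ j = 1 := by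
    intro y hy
    obtain ⟨j, hj⟩ := P.isPGroup' ⟨y, hy⟩
    exact ⟨j, congrArg Subtype.val hj⟩
  -- `H` is hyperelementary
  have hHyp : IsHyp H := by
    refine ⟨p, hp, c, ?_, ?_, ?_, ?_⟩
    · rw [hmemH]
      refine ⟨hCN (Subgroup.mem_zpowers c), ?_⟩
      have : QuotientGroup.mk' C' ⟨c, hCN (Subgroup.mem_zpowers c)⟩ = 1 := by
        rw [QuotientGroup.mk'_apply, QuotientGroup.eq_one_iff]
        exact Subgroup.mem_zpowers c
      rw [this]
      exact Subgroup.one_mem _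
    · intro h hh
      obtain ⟨hhN, -⟩ := (hmemH h).1 hh
      exact (Subgroup.mem_normalizer_iff.1 hhN c).1 (Subgroup.mem_zpowers c)
    · rw [hoc]; exact hmp
    · intro h hh
      obtain ⟨hhN, hhP⟩ := (hmemH h).1 hh
      obtain ⟨j, hj⟩ := hPpow _ hhP
      refine ⟨j, hmk1 _ (N.pow_mem hhN _) ?_⟩
      rw [← hj, ← map_pow]
      rfl
  refine ⟨H, hHyp, ?_⟩
  -- `x⁻¹ g x ∈ H` implies `x ∈ N`
  have hxN : ∀ x : G, x⁻¹ * g * x ∈ H → x ∈ N := by
    intro x hx
    have h1 : x⁻¹ * c * x ∈ H := by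
      have := H.pow_mem hx (p ^ k)
      have h2 : (x⁻¹ * g * x) ^ p ^ k = x⁻¹ * c * x := by
        have := conj_pow (i := p ^ k) (a := x⁻¹) (b := g)
        rw [inv_inv] at this
        rw [this]
      rwa [h2] at this
    obtain ⟨h1N, h1P⟩ := (hmemH _).1 h1
    obtain ⟨j, hj⟩ := hPpow _ h1P
    have h2 : (QuotientGroup.mk' C' ⟨x⁻¹ * c * x, h1N⟩) ^ m = 1 := by
      rw [← map_pow]
      have : (⟨x⁻¹ * c * x, h1N⟩ : N) ^ m = 1 := by
        apply Subtype.ext
        change (x⁻¹ * c * x) ^ m = 1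
        have := conj_pow (i := m) (a := x⁻¹) (b := c)
        rw [inv_inv] at this
        rw [this, ← hoc, pow_orderOf_eq_one]; group
      rw [this, map_one]
    have h3 : QuotientGroup.mk' C' ⟨x⁻¹ * c * x, h1N⟩ = 1 := by
      have hd1 := orderOf_dvd_of_pow_eq_one hj
      have hd2 := orderOf_dvd_of_pow_eq_one h2
      have : orderOf (QuotientGroup.mk' C' ⟨x⁻¹ * c * x, h1N⟩) = 1 :=
        Nat.eq_one_of_dvd_coprimes (Nat.Coprime.pow_left j hmp.symm) hd1 hd2
      exact orderOf_eq_one_iff.1 this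
    have h4 : x⁻¹ * c * x ∈ C := hmk1 _ h1N h3
    have h5 : x⁻¹ ∈ N := by
      refine Subgroup.mem_normalizer_fintype (S := (C : Set G)) fun n hn => ?_
      exact conj_zpow_mem (c := c) (by rwa [inv_inv]) hn
    exact (Subgroup.inv_mem_iff N).1 h5
  -- comparison of the fixed points
  let g' : N := ⟨g, hgN⟩
  have hcard : pc H g = (Nat.card {x : N ⧸ H' // g' • x = x} : ℤ) := by
    unfold pc pcX
    congr 1
    symm
    let ψ : N ⧸ H' → G ⧸ H := Quotient.map' (fun n : N => (n : G)) (by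
      intro a b hab
      rw [QuotientGroup.leftRel_apply] at hab ⊢
      exact ⟨a⁻¹ * b, hab, rfl⟩)
    have hψ : ∀ n : N, ψ (n : N ⧸ H') = ((n : G) : G ⧸ H) := fun n => rfl
    have hψinj : Function.Injective ψ := by
      intro x y hxy
      obtain ⟨a, rfl⟩ := QuotientGroup.mk_surjective x
      obtain ⟨b, rfl⟩ := QuotientGroup.mk_surjective y
      rw [hψ, hψ, QuotientGroup.eq] at hxy
      rw [QuotientGroup.eq]
      obtain ⟨z, hz, hz2⟩ := hxy
      have : z = a⁻¹ * b := Subtype.ext hz2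
      rwa [← this]
    have hψg : ∀ x : N ⧸ H', ψ (g' • x) = g • ψ x := by
      intro x
      obtain ⟨a, rfl⟩ := QuotientGroup.mk_surjective x
      rfl
    refine Nat.card_congr (Equiv.ofBijective (fun x => ⟨ψ x.1, ?_⟩) ⟨?_, ?_⟩)
    · rw [← hψg, x.2]
    · intro x y hxy
      exact Subtype.ext (hψinj (congrArg Subtype.val hxy))
    · rintro ⟨y, hy⟩
      obtain ⟨a, rfl⟩ := QuotientGroup.mk_surjective y
      have ha : a⁻¹ * g * a ∈ H := stab_quot H a (mem_stabilizer_iff.2 hy)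
      have haN := hxN a ha
      refine ⟨⟨((⟨a, haN⟩ : N) : N ⧸ H'), hψinj ?_⟩, rfl⟩
      rw [hψg, hψ]
      exact hy
  have hmod : Nat.card (N ⧸ H') ≡ Nat.card {x : N ⧸ H' // g' • x = x} [MOD p] := by
    have := Fintype.ofFinite (N ⧸ H')
    let f : Function.End (N ⧸ H') := fun x => g' • x
    have hf : ∀ n : ℕ, ∀ x, (f ^ n) x = g' ^ n • x := by
      intro n
      induction n with
      | zero => intro x; rw [pow_zero, pow_zero, one_smul]; rfl
      | succ n ih =>
        intro x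
        rw [pow_succ]
        change (f ^ n) (g' • x) = _
        rw [ih, smul_smul, pow_succ]
    have hf1 : f ^ p ^ k = 1 := by
      funext x
      rw [hf]
      obtain ⟨a, rfl⟩ := QuotientGroup.mk_surjective x
      change ((g' ^ p ^ k * a : N) : N ⧸ H') = (a : N ⧸ H')
      rw [eq_comm, QuotientGroup.eq]
      change QuotientGroup.mk' C' (a⁻¹ * (g' ^ p ^ k * a)) ∈ (P : Subgroup _)
      have : QuotientGroup.mk' C' (a⁻¹ * (g' ^ p ^ k * a)) = 1 := by
        rw [map_mul, map_mul, map_pow]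
        change _ * (gb ^ p ^ k * _) = 1
        rw [hgb, one_mul, ← map_mul, inv_mul_cancel, map_one]
      rw [this]
      exact Subgroup.one_mem _
    have := Equiv.Perm.card_fixedPoints_modEq hf1
    rw [← Nat.card_eq_fintype_card, ← Nat.card_eq_fintype_card] at this
    exact this
  have hidx : ¬ p ∣ Nat.card (N ⧸ H') := by
    change ¬ p ∣ H'.index
    rw [Subgroup.index_comap_of_surjective _ (QuotientGroup.mk'_surjective C')]
    exact P.not_dvd_index
  rw [hcard, Int.natCast_dvd_natCast]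
  intro hd
  exact hidx ((hmod.dvd_iff dvd_rfl).2 hd)

/-- **Solomon's induction theorem.** -/
theorem solomon [Finite G] : (1 : G → ℤ) ∈ R G := by
  refine banaschewski (R G) (fun f hf g hg => R_mul hf hg) fun g p hp => ?_
  obtain ⟨H, hH, hd⟩ := exists_hyp g p hp
  exact ⟨pc H, AddSubgroup.subset_closure ⟨H, hH, rfl⟩, hd⟩

end Pool.Agent.GC
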