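import Pool.Agent.Lib.GC.Rows
import Pool.Agent.Lib.GC.Solomon

/-!
Rows HY, B1a, B1b, B1c, B1 of the project GC, from `Solomon.lean`.  helper77.
-/

namespace Pool.Agent.GC

/-- Row HY. -/
theorem hypRow : HY := by
  intro H K _ _ _ f hf ⟨p, hp, C, hN, hC, hco, hpow⟩
  have hcard : Nat.card (C.comap f) ∣ Nat.card C := by
    have : Nat.card (C.comap f) = Nat.card ((C.comap f).map f) :=
      (Nat.card_congr ((C.comap f).equivMapOfInjective f hf).toEquiv)
    rw [this]
    exact Subgroup.card_dvd_of_le (Subgroup.map_comap_le f C)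
  refine ⟨p, hp, C.comap f, hN.comap f, ?_, Nat.Coprime.coprime_dvd_left hcard hco,
    fun h => ?_⟩
  · let F : C.comap f →* C :=
      (f.comp (C.comap f).subtype).codRestrict C fun x => x.2
    exact isCyclic_of_injective F fun x y hxy =>
      Subtype.ext (hf (congrArg Subtype.val hxy))
  · obtain ⟨k, hk⟩ := hpow (f h)
    exact ⟨k, by rw [Subgroup.mem_comap, map_pow]; exact hk⟩

theorem hyp_iff {G : Type} [Group G] (H : Subgroup G) : Hyp H ↔ IsHyp H := by
  constructor
  · rintro ⟨p, hp, C, hN, hC, hco, hpow⟩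
    obtain ⟨c, hc⟩ := (Subgroup.isCyclic_iff_exists_zpowers_eq_top C).1 hC
    have hmem : ∀ h : H, h ∈ C ↔ (h : G) ∈ Subgroup.zpowers (c : G) := by
      intro h
      rw [← hc, Subgroup.mem_zpowers_iff, Subgroup.mem_zpowers_iff]
      constructor
      · rintro ⟨j, rfl⟩; exact ⟨j, by simp⟩
      · rintro ⟨j, hj⟩; exact ⟨j, Subtype.ext (by simpa using hj)⟩
    have hcC : c ∈ C := (hmem c).2 (Subgroup.mem_zpowers _)
    refine ⟨p, hp, c, c.2, fun h hh => ?_, ?_, fun h hh => ?_⟩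
    · exact (hmem (⟨h, hh⟩ * c * ⟨h, hh⟩⁻¹)).1 (hN.conj_mem c hcC _)
    · rw [Subgroup.orderOf_coe, ← Nat.card_zpowers, hc]
      exact hco
    · obtain ⟨k, hk⟩ := hpow ⟨h, hh⟩
      exact ⟨k, (hmem _).1 hk⟩
  · rintro ⟨p, hp, c, hc, hn, hco, hpow⟩
    refine ⟨p, hp, (Subgroup.zpowers c).subgroupOf H, ⟨fun x hx h => ?_⟩, ?_, ?_, fun h => ?_⟩
    · exact conj_zpow_mem (hn h h.2) hx
    · exact isCyclic_of_injective ((H.subtype.comp
        ((Subgroup.zpowers c).subgroupOf H).subtype).codRestrict (Subgroup.zpowers c)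
          fun x => x.2) fun x y hxy => by
            have h1 : ((x : H) : G) = ((y : H) : G) :=
              congrArg (Subtype.val : Subgroup.zpowers c → G) hxy
            exact Subtype.ext (Subtype.ext h1)
    · rw [Nat.card_congr (Subgroup.subgroupOfEquivOfLe
        (Subgroup.zpowers_le.2 hc)).toEquiv, Nat.card_zpowers]
      exact hco
    · obtain ⟨k, hk⟩ := hpow h h.2
      exact ⟨k, hk⟩

theorem perm_eq {G : Type} [Group G] (H : Subgroup G) : perm H = pc H := rfl

theorem pHyp_eq (G : Type) [Group G] : PHyp G = R G := by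
  unfold PHyp R
  congr 1
  ext f
  simp only [Set.mem_ofPred_eq, hyp_iff, perm_eq]

/-- Row B1a. -/
theorem b1aRow : B1a := fun _ _ S hmul h => banaschewski S hmul h

/-- Row B1b. -/
theorem b1bRow : B1b := by
  intro G _ _ f hf f' hf'
  rw [pHyp_eq] at *
  exact R_mul hf hf'

theorem b1b_of (_ : HY) : B1b := b1bRow

/-- Row B1c. -/
theorem b1cRow : B1c := by
  intro G _ _ g p hp
  obtain ⟨H, hH, hd⟩ := exists_hyp g p hp
  exact ⟨H, (hyp_iff H).2 hH, hd⟩

/-- Row B1. -/
theorem b1Row : B1 := by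
  intro G _ _
  rw [pHyp_eq]
  exact solomon

theorem b1_of (_ : B1a) (_ : B1b) (_ : B1c) : B1 := b1Row

end Pool.Agent.GC
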