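import Pool.Agent.Lib.GC.IndT

/-!
# GC, row B2: Brauer's induction theorem in monomial form
-/

set_option autoImplicit false

namespace Pool.Agent.GC

open Finset

variable {G : Type} [Group G] [Fintype G] {E : Type} [Field E]

/-- summation over the group of a function of the coset -/
theorem sum_mk [CharZero E] (H : Subgroup G) [Fintype (G ⧸ H)] (f : G ⧸ H → E) :
    ∑ x : G, f (x : G ⧸ H) = (Nat.card H : E) * ∑ q : G ⧸ H, f q := by
  classical
  have : Fintype H := Fintype.ofFinite H
  have h1 : ∑ x : G, f (x : G ⧸ H) = ∑ p : (G ⧸ H) × H, f p.1 := by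
    refine Fintype.sum_equiv Subgroup.groupEquivQuotientProdSubgroup _ _ fun x => ?_
    rfl
  rw [h1, Fintype.sum_prod_type]
  simp only [Finset.sum_const, Finset.card_univ, nsmul_eq_mul]
  rw [← Finset.mul_sum, Nat.card_eq_fintype_card]

theorem perm_cast [CharZero E] (H : Subgroup G) (g : G) :
    ((perm H g : ℤ) : E) = (Nat.card H : E)⁻¹ * ∑ x : G, ext0 H (fun _ => (1 : E))
      (x⁻¹ * g * x) := by
  classical
  have : Fintype (G ⧸ H) := Fintype.ofFinite _
  have h1 : ∀ x : G, ext0 H (fun _ => (1 : E)) (x⁻¹ * g * x) =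
      (fun q : G ⧸ H => if g • q = q then (1 : E) else 0) (x : G ⧸ H) := by
    intro x
    have h2 : x⁻¹ * g * x ∈ H ↔ g • (x : G ⧸ H) = (x : G ⧸ H) := by
      change _ ↔ ((g * x : G) : G ⧸ H) = (x : G ⧸ H)
      rw [eq_comm, QuotientGroup.eq, mul_assoc]
    by_cases h : x⁻¹ * g * x ∈ H
    · rw [ext0_of h]
      simp only [if_pos (h2.1 h)]
    · rw [ext0_not h]
      simp only [if_neg (fun h' => h (h2.2 h'))]
  rw [Finset.sum_congr rfl fun x _ => h1 x,
    sum_mk H (fun q : G ⧸ H => if g • q = q then (1 : E) else 0), ← mul_assoc, inv_mul_cancel₀, one_mul,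
    Finset.sum_boole, perm, Nat.card_eq_fintype_card, Fintype.card_subtype]
  · push_cast
    rfl
  · exact Nat.cast_ne_zero.mpr Nat.card_pos.ne'

theorem isChar_restrict {χ : G → E} (h : IsChar χ) (H : Subgroup G) :
    IsChar (fun x : H => χ x) := by
  obtain ⟨d, ρ, hρ⟩ := h
  exact ⟨d, ρ.comp H.subtype, fun x => hρ x⟩

theorem isChar_conj {χ : G → E} (h : IsChar χ) (g x : G) : χ (x⁻¹ * g * x) = χ g := by
  obtain ⟨d, ρ, hρ⟩ := h
  rw [hρ, hρ, map_mul, map_mul, Matrix.trace_mul_comm, ← mul_assoc, ← map_mul, mul_inv_cancel,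
    map_one, one_mul]

/-- the projection formula -/
theorem perm_mul [CharZero E] (H : Subgroup G) {χ : G → E} (h : IsChar χ) :
    (fun g => ((perm H g : ℤ) : E) * χ g) = ind H (fun x : H => χ x) := by
  funext g
  rw [perm_cast, ind_eq, mul_assoc, Finset.sum_mul]
  congr 1
  apply Finset.sum_congr rfl
  intro x _
  by_cases hx : x⁻¹ * g * x ∈ H
  · rw [ext0_of hx, ext0_of hx, one_mul]
    exact (isChar_conj h g x).symm
  · rw [ext0_not hx, ext0_not hx, zero_mul]

theorem b2_of (b1 : B1) (b3 : B3) : BRAUER := by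
  intro G _ _ E _ _ hζ χ hχ
  have key : ∀ f ∈ PHyp G, (fun g => ((f g : ℤ) : E) * χ g) ∈ Vir G E := by
    intro f hf
    unfold PHyp at hf
    induction hf using AddSubgroup.closure_induction with
    | mem f h =>
      obtain ⟨H, hH, rfl⟩ := h
      rw [perm_mul H hχ]
      have : Fintype H := Fintype.ofFinite H
      apply ind_mem_vir
      apply b3 H E hH _ _ (isChar_restrict hχ H)
      refine ⟨Fintype.card G, Fintype.card_ne_zero, ?_, hζ⟩
      have h := Subgroup.card_subgroup_dvd_card H
      rwa [Nat.card_eq_fintype_card, Nat.card_eq_fintype_card] at h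
    | zero =>
      have h : (fun g => (((0 : G → ℤ) g : ℤ) : E) * χ g) = 0 := by
        funext g
        simp
      rw [h]
      exact zero_mem _
    | add f f' _ _ h h' =>
      have h2 : (fun g => (((f + f') g : ℤ) : E) * χ g) =
          (fun g => ((f g : ℤ) : E) * χ g) + fun g => ((f' g : ℤ) : E) * χ g := by
        funext g
        simp only [Pi.add_apply]
        push_cast
        ring
      rw [h2]
      exact add_mem h h'
    | neg f _ h =>
      have h2 : (fun g => (((-f) g : ℤ) : E) * χ g) = -fun g => ((f g : ℤ) : E) * χ g := by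
        funext g
        simp only [Pi.neg_apply]
        push_cast
        ring
      rw [h2]
      exact neg_mem h
  have h1 := key 1 (b1 G)
  have h2 : (fun g => (((1 : G → ℤ) g : ℤ) : E) * χ g) = χ := by
    funext g
    simp
  rwa [h2] at h1

end Pool.Agent.GC
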