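import Pool.Agent.Lib.GC.IndT

/-!
# Row B3: hyperelementary groups are monomial.  helper44.
-/

namespace Pool.Agent.GC

noncomputable section

namespace B3

open Module

section linear

variable {E : Type} [Field E] {V : Type} [AddCommGroup V] [Module E V] [FiniteDimensional E V]

theorem trace_mul_proj (f Q : End E V) (N : Submodule E V) (hQ : ∀ v ∈ N, Q v = v)
    (hf : ∀ v ∈ N, f v ∈ N) (hr : ∀ v, f (Q v) ∈ N) :
    LinearMap.trace E V (f * Q) = LinearMap.trace E N (f.restrict hf) := by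
  rw [← LinearMap.trace_restrict_eq_of_forall_mem N (f * Q) hr]
  congr 1
  ext v
  change f (Q v.1) = f v.1
  rw [hQ v.1 v.2]

/-- an endomorphism with `T ^ n = 1` has an eigenvalue, if there are enough roots of unity -/
theorem exists_eigenvalue [Nontrivial V] {n N : ℕ} (hn : 0 < n) (hN : N ≠ 0) (hd : n ∣ N)
    {ζ : E} (hζ : IsPrimitiveRoot ζ N) (T : End E V) (hT : T ^ n = 1) :
    ∃ μ : E, μ ^ n = 1 ∧ T.HasEigenvalue μ := by
  obtain ⟨m, rfl⟩ := hd
  have hz : IsPrimitiveRoot (ζ ^ m) n :=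
    hζ.pow (Nat.pos_of_ne_zero hN) (mul_comm n m)
  have hsp := Polynomial.X_pow_sub_one_splits hz
  have h0 : (Polynomial.X ^ n - 1 : Polynomial E) ≠ 0 :=
    Polynomial.X_pow_sub_C_ne_zero hn (1 : E)
  have hdvd : minpoly E T ∣ (Polynomial.X ^ n - 1 : Polynomial E) := by
    refine minpoly.dvd E T ?_
    rw [map_sub, map_pow, Polynomial.aeval_X, map_one, hT, sub_self]
  have hmin : (minpoly E T).Splits := hsp.of_dvd h0 hdvd
  have hdeg : (minpoly E T).degree ≠ 0 :=
    (minpoly.degree_pos (Algebra.IsIntegral.isIntegral T)).ne'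
  obtain ⟨μ, hμ⟩ := hmin.exists_eval_eq_zero hdeg
  refine ⟨μ, ?_, End.hasEigenvalue_of_isRoot hμ⟩
  have h1 : (Polynomial.X ^ n - 1 : Polynomial E).eval μ = 0 :=
    Polynomial.eval_eq_zero_of_dvd_of_eval_eq_zero hdvd hμ
  rw [Polynomial.eval_sub, Polynomial.eval_pow, Polynomial.eval_X, Polynomial.eval_one,
    sub_eq_zero] at h1
  exact h1

/-- the projection to an eigenspace -/
def pr (T : End E V) (n : ℕ) (μ : E) : End E V :=
  (n : E)⁻¹ • ∑ i ∈ Finset.range n, (μ ^ i)⁻¹ • T ^ i

omit [FiniteDimensional E V] in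
theorem pr_of_mem [CharZero E] {T : End E V} {n : ℕ} (hn : 0 < n) {μ : E} (hμ : μ ≠ 0) {v : V}
    (hv : T v = μ • v) : pr T n μ v = v := by
  have h1 : ∀ i : ℕ, (T ^ i) v = μ ^ i • v := by
    intro i
    induction i with
    | zero => simp
    | succ i ih => rw [pow_succ, Module.End.mul_apply, hv, map_smul, ih, smul_smul, pow_succ,
        mul_comm]
  rw [pr, LinearMap.smul_apply, LinearMap.sum_apply]
  have h2 : ∀ i ∈ Finset.range n, ((μ ^ i)⁻¹ • T ^ i) v = v := by
    intro i _
    rw [LinearMap.smul_apply, h1, smul_smul, inv_mul_cancel₀ (pow_ne_zero i hμ), one_smul]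
  rw [Finset.sum_congr rfl h2, Finset.sum_const, Finset.card_range, ← Nat.cast_smul_eq_nsmul E,
    smul_smul, inv_mul_cancel₀ (Nat.cast_ne_zero.mpr hn.ne'), one_smul]

omit [FiniteDimensional E V] in
theorem T_pr {T : End E V} {n : ℕ} {μ : E} (hμ0 : μ ≠ 0) (hT : T ^ n = 1) (hμ : μ ^ n = 1) :
    T * pr T n μ = μ • pr T n μ := by
  rw [pr, mul_smul_comm, smul_comm μ, Finset.mul_sum]
  congr 1
  have h1 : ∀ i ∈ Finset.range n, T * ((μ ^ i)⁻¹ • T ^ i) =
      μ • ((μ ^ (i + 1))⁻¹ • T ^ (i + 1)) := by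
    intro i _
    rw [mul_smul_comm, ← pow_succ', smul_smul]
    congr 1
    rw [pow_succ, mul_inv, mul_comm μ, mul_assoc, inv_mul_cancel₀ hμ0, mul_one]
  rw [Finset.sum_congr rfl h1, ← Finset.smul_sum]
  congr 1
  have h2 := Finset.sum_range_succ (fun i => (μ ^ i)⁻¹ • T ^ i) n
  have h3 := Finset.sum_range_succ' (fun i => (μ ^ i)⁻¹ • T ^ i) n
  rw [h2] at h3
  simp only [hT, hμ, pow_zero] at h3
  exact (add_right_cancel h3).symm

omit [FiniteDimensional E V] in
theorem commute_pr {S T : End E V} {n : ℕ} {μ : E} (h : Commute S T) : Commute S (pr T n μ) :=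
  (Commute.sum_right _ _ _ fun _ _ => (h.pow_right _).smul_right _).smul_right _

theorem trace_one' : LinearMap.trace E V 1 = (finrank E V : E) := LinearMap.trace_one E V

end linear

section rep

variable {E : Type} [Field E] {H : Type} [Group H]
  {V : Type} [AddCommGroup V] [Module E V]

/-- restriction of a representation to an invariant subspace -/
def res (ρ : H →* End E V) (W : Submodule E V) (hW : ∀ g, ∀ v ∈ W, ρ g v ∈ W) :
    H →* End E W where
  toFun g := (ρ g).restrict (hW g)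
  map_one' := by
    ext v
    rw [LinearMap.coe_restrict_apply, map_one]
    rfl
  map_mul' g h := by
    ext v
    rw [LinearMap.coe_restrict_apply, map_mul]
    rfl

theorem apply_inv (ρ : H →* End E V) (g : H) (v : V) : ρ g (ρ g⁻¹ v) = v := by
  rw [← Module.End.mul_apply, ← map_mul, mul_inv_cancel, map_one, Module.End.one_apply]

theorem inv_apply (ρ : H →* End E V) (g : H) (v : V) : ρ g⁻¹ (ρ g v) = v := by
  rw [← Module.End.mul_apply, ← map_mul, inv_mul_cancel, map_one, Module.End.one_apply]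

variable [FiniteDimensional E V]

/-- Maschke -/
theorem exists_compl [Fintype H] [CharZero E] (ρ : H →* End E V) (W : Submodule E V)
    (hW : ∀ g, ∀ v ∈ W, ρ g v ∈ W) :
    ∃ (U : Submodule E V) (hU : ∀ g, ∀ v ∈ U, ρ g v ∈ U),
      finrank E W + finrank E U = finrank E V ∧
      ∀ g, LinearMap.trace E V (ρ g) =
        LinearMap.trace E W (res ρ W hW g) + LinearMap.trace E U (res ρ U hU g) := by
  obtain ⟨q, hq⟩ := LinearMap.exists_leftInverse_of_injective W.subtype
    (LinearMap.ker_eq_bot.mpr W.subtype_injective)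
  set p : End E V := W.subtype ∘ₗ q with hp
  have hpW : ∀ v ∈ W, p v = v := by
    intro v hv
    have := LinearMap.congr_fun hq ⟨v, hv⟩
    change W.subtype (q v) = v
    change q (W.subtype ⟨v, hv⟩) = ⟨v, hv⟩ at this
    change q v = ⟨v, hv⟩ at this
    rw [this]
    rfl
  have hpr : ∀ v, p v ∈ W := fun v => (q v).2
  set P : End E V := (Fintype.card H : E)⁻¹ • ∑ h : H, ρ h * p * ρ h⁻¹ with hP
  have hc : (Fintype.card H : E) ≠ 0 := Nat.cast_ne_zero.mpr Fintype.card_ne_zero
  have hPv : ∀ v, P v = (Fintype.card H : E)⁻¹ • ∑ h : H, ρ h (p (ρ h⁻¹ v)) := by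
    intro v
    rw [hP, LinearMap.smul_apply, LinearMap.sum_apply]
    rfl
  have hPW : ∀ v ∈ W, P v = v := by
    intro v hv
    rw [hPv, Finset.sum_congr rfl (g := fun _ => v) fun h _ => ?_, Finset.sum_const,
      Finset.card_univ, ← Nat.cast_smul_eq_nsmul E, smul_smul, inv_mul_cancel₀ hc, one_smul]
    rw [hpW _ (hW _ _ hv), apply_inv]
  have hPr : ∀ v, P v ∈ W := by
    intro v
    rw [hPv]
    exact W.smul_mem _ (W.sum_mem fun h _ => hW _ _ (hpr _))
  have hcomm : ∀ g v, P (ρ g v) = ρ g (P v) := by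
    intro g v
    rw [hPv, hPv, map_smul, map_sum]
    congr 1
    refine Fintype.sum_equiv (Equiv.mulLeft g⁻¹) _ _ fun h => ?_
    have h1 : ρ g (ρ (g⁻¹ * h) (p (ρ (g⁻¹ * h)⁻¹ v))) = ρ (g * (g⁻¹ * h)) (p (ρ (g⁻¹ * h)⁻¹ v)) := by
      rw [map_mul ρ g]; rfl
    have h2 : ρ h⁻¹ (ρ g v) = ρ (g⁻¹ * h)⁻¹ v := by
      rw [mul_inv_rev, inv_inv, map_mul]; rfl
    rw [Equiv.coe_mulLeft, h1, mul_inv_cancel_left, h2]
  have hU : ∀ g, ∀ v ∈ LinearMap.ker P, ρ g v ∈ LinearMap.ker P := by
    intro g v hv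
    rw [LinearMap.mem_ker] at hv ⊢
    rw [hcomm, hv, map_zero]
  refine ⟨LinearMap.ker P, hU, ?_, fun g => ?_⟩
  · have hrange : LinearMap.range P = W := by
      apply le_antisymm
      · rintro _ ⟨v, rfl⟩
        exact hPr v
      · intro v hv
        exact ⟨v, hPW v hv⟩
    rw [← hrange]
    exact LinearMap.finrank_range_add_finrank_ker P
  · have h1 : ρ g = ρ g * P + ρ g * (1 - P) := by
      rw [mul_sub, mul_one, add_sub_cancel]
    have h2 := trace_mul_proj (ρ g) P W hPW (hW g) fun v => hW g _ (hPr v)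
    have h3 := trace_mul_proj (ρ g) (1 - P) (LinearMap.ker P)
      (fun v hv => by
        rw [LinearMap.mem_ker] at hv
        rw [LinearMap.sub_apply, hv, sub_zero, Module.End.one_apply]) (hU g)
      (fun v => hU g _ (by
        rw [LinearMap.mem_ker, LinearMap.sub_apply, Module.End.one_apply, map_sub,
          hPW _ (hPr v), sub_self]))
    conv_lhs => rw [h1]
    rw [map_add, h2, h3]
    rfl

/-- the elements which act by scalars -/
def scal [Nontrivial V] (ρ : H →* End E V) : Subgroup H where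
  carrier := {g | ∃ c : E, ρ g = algebraMap E (End E V) c}
  one_mem' := ⟨1, by rw [map_one, map_one]⟩
  mul_mem' := by
    rintro g h ⟨c, hc⟩ ⟨d, hd⟩
    exact ⟨c * d, by rw [map_mul, map_mul, hc, hd]⟩
  inv_mem' := by
    rintro g ⟨c, hc⟩
    have h1 : ρ g * ρ g⁻¹ = 1 := by rw [← map_mul, mul_inv_cancel, map_one]
    have hc0 : c ≠ 0 := by
      rintro rfl
      rw [hc, map_zero, zero_mul] at h1
      exact zero_ne_one h1
    refine ⟨c⁻¹, ?_⟩
    rw [hc] at h1
    calc ρ g⁻¹ = algebraMap E (End E V) (c⁻¹ * c) * ρ g⁻¹ := by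
          rw [inv_mul_cancel₀ hc0, map_one, one_mul]
      _ = algebraMap E (End E V) c⁻¹ := by rw [map_mul, mul_assoc, h1, mul_one]

omit [FiniteDimensional E V] in
theorem scal_normal [Nontrivial V] (ρ : H →* End E V) : (scal ρ).Normal := by
  refine ⟨?_⟩
  rintro z ⟨c, hc⟩ g
  refine ⟨c, ?_⟩
  rw [map_mul, map_mul, hc, ← Algebra.commutes, mul_assoc, ← map_mul, mul_inv_cancel, map_one,
    mul_one]

theorem scal_top [Fintype H] [CharZero E] [Nontrivial V] (ρ : H →* End E V) (h : scal ρ = ⊤) :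
    (fun g => LinearMap.trace E V (ρ g)) ∈ Vir H E := by
  have h1 : ∀ g, ∃ c : E, ρ g = algebraMap E (End E V) c := fun g => by
    have : g ∈ scal ρ := h ▸ Subgroup.mem_top g
    exact this
  choose c hc using h1
  have hinj := (algebraMap E (End E V)).injective
  let ψ : H →* E :=
    { toFun := c
      map_one' := hinj (by rw [← hc, map_one, map_one])
      map_mul' := fun a b => hinj (by rw [← hc, map_mul, map_mul, hc a, hc b]) }
  have h2 : (fun g => LinearMap.trace E V (ρ g)) = finrank E V • fun g => ψ g := by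
    funext g
    rw [hc, Algebra.algebraMap_eq_smul_one, map_smul, LinearMap.trace_one, Pi.smul_apply,
      nsmul_eq_mul, smul_eq_mul, mul_comm]
    rfl
  rw [h2]
  exact nsmul_mem (lin_mem_vir ψ) _

omit [FiniteDimensional E V] in
/-- the element which moves the eigenspaces nontrivially -/
theorem exists_x [Finite H] [Nontrivial V] (ρ : H →* End E V) (hH : Hyp H)
    (h : scal ρ ≠ ⊤) : ∃ x, x ∉ scal ρ ∧ ∀ g, ∃ z ∈ scal ρ, ∃ j : ℕ, g⁻¹ * x * g = z * x ^ j := by
  obtain ⟨p, hp, C, hCn, hCc, -, hpk⟩ := hH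
  obtain ⟨c, hc⟩ := (Subgroup.isCyclic_iff_exists_zpowers_eq_top C).mp hCc
  by_cases hcz : c ∈ scal ρ
  · have hCZ : C ≤ scal ρ := by
      rw [← hc, Subgroup.zpowers_le]
      exact hcz
    have := scal_normal ρ
    have : Fact p.Prime := ⟨hp⟩
    have hP : IsPGroup p (H ⧸ scal ρ) := by
      intro q
      obtain ⟨g, rfl⟩ := QuotientGroup.mk_surjective q
      obtain ⟨k, hk⟩ := hpk g
      refine ⟨k, ?_⟩
      rw [← QuotientGroup.mk_pow, QuotientGroup.eq_one_iff]
      exact hCZ hk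
    have : Nontrivial (H ⧸ scal ρ) := QuotientGroup.nontrivial_iff.mpr h
    have := hP.center_nontrivial
    obtain ⟨⟨y, hy⟩, hy1⟩ := exists_ne (1 : Subgroup.center (H ⧸ scal ρ))
    obtain ⟨x, rfl⟩ := QuotientGroup.mk_surjective y
    refine ⟨x, fun hx => hy1 (Subtype.ext ((QuotientGroup.eq_one_iff x).mpr hx)), fun g => ?_⟩
    refine ⟨g⁻¹ * x * g * x⁻¹, ?_, 1, by group⟩
    rw [← QuotientGroup.eq_one_iff]
    have h1 := Subgroup.mem_center_iff.mp hy (g : H ⧸ scal ρ)
    rw [QuotientGroup.mk_mul, QuotientGroup.mk_mul, QuotientGroup.mk_mul, QuotientGroup.mk_inv,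
      QuotientGroup.mk_inv, mul_assoc _ (x : H ⧸ scal ρ), ← h1]
    group
  · refine ⟨c, hcz, fun g => ⟨1, one_mem _, ?_⟩⟩
    have h1 : c ∈ C := hc ▸ Subgroup.mem_zpowers c
    have h2 := hCn.conj_mem c h1 g⁻¹
    rw [inv_inv, ← hc, ← mem_powers_iff_mem_zpowers] at h2
    obtain ⟨j, hj⟩ := h2
    refine ⟨j, ?_⟩
    rw [one_mul]
    exact hj.symm

/-- the stabilizer of a subspace -/
def stab [Finite H] (ρ : H →* End E V) (W : Submodule E V) : Subgroup H where
  carrier := {g | ∀ v ∈ W, ρ g v ∈ W}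
  one_mem' := by
    intro v hv
    rw [map_one]
    exact hv
  mul_mem' := by
    intro g h hg hh v hv
    rw [map_mul]
    exact hg _ (hh v hv)
  inv_mem' := by
    intro g hg
    have h1 : ∀ k : ℕ, ∀ v ∈ W, ρ (g ^ k) v ∈ W := by
      intro k
      induction k with
      | zero => intro v hv; rw [pow_zero, map_one]; exact hv
      | succ k ih => intro v hv; rw [pow_succ', map_mul]; exact hg _ (ih v hv)
    have h2 : g⁻¹ = g ^ (Nat.card H - 1) := by
      refine inv_eq_of_mul_eq_one_right ?_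
      rw [← pow_succ', Nat.sub_add_cancel Nat.card_pos, pow_card_eq_one']
    intro v hv
    rw [h2]
    exact h1 _ v hv

/-- Clifford -/
theorem clifford [Fintype H] [CharZero E] [Nontrivial V] (ρ : H →* End E V)
    (hirr : ∀ W : Submodule E V, (∀ g, ∀ v ∈ W, ρ g v ∈ W) → W ≠ ⊥ → W = ⊤)
    (hroot : ∃ N : ℕ, N ≠ 0 ∧ Fintype.card H ∣ N ∧ ∃ ζ : E, IsPrimitiveRoot ζ N)
    {x : H} (hx : x ∉ scal ρ) (hconj : ∀ g, ∃ z ∈ scal ρ, ∃ j : ℕ, g⁻¹ * x * g = z * x ^ j) :
    ∃ (K : Subgroup H) (W : Submodule E V) (σ : K →* End E W), K ≠ ⊤ ∧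
      (fun g => LinearMap.trace E V (ρ g)) = ind K (fun k => LinearMap.trace E W (σ k)) := by
  obtain ⟨N, hN, hd, ζ, hζ⟩ := hroot
  set n := Fintype.card H with hn
  have hn0 : 0 < n := Fintype.card_pos
  set T := ρ x with hTdef
  have hT : T ^ n = 1 := by rw [hTdef, ← map_pow, hn, pow_card_eq_one, map_one]
  obtain ⟨μ, hμn, hμ⟩ := exists_eigenvalue hn0 hN hd hζ T hT
  have hμ0 : μ ≠ 0 := by
    rintro rfl
    rw [zero_pow hn0.ne'] at hμn
    exact zero_ne_one hμn
  set W := T.eigenspace μ with hW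
  have hWmem : ∀ v, v ∈ W ↔ T v = μ • v := fun v => Module.End.mem_eigenspace_iff
  set K := stab ρ W with hK
  set P := pr T n μ with hP
  have hPW : ∀ v ∈ W, P v = v := fun v hv => pr_of_mem hn0 hμ0 ((hWmem v).mp hv)
  have hTP : ∀ v, T (P v) = μ • P v := fun v => LinearMap.congr_fun (T_pr hμ0 hT hμn) v
  have hPr : ∀ v, P v ∈ W := fun v => (hWmem _).mpr (hTP v)
  have hPT : ∀ v, P (T v) = μ • P v := by
    intro v
    rw [← hTP]
    exact LinearMap.congr_fun (commute_pr (Commute.refl T)).symm.eq v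
  -- the action on the eigenspace
  have hmove : ∀ g, ∃ ν : E, ∀ v ∈ W, T (ρ g v) = ν • ρ g v := by
    intro g
    obtain ⟨z, ⟨c, hc⟩, j, hj⟩ := hconj g
    refine ⟨c * μ ^ j, fun v hv => ?_⟩
    have h1 : T (ρ g v) = ρ g (ρ (g⁻¹ * x * g) v) := by
      rw [hTdef, ← Module.End.mul_apply, ← Module.End.mul_apply, ← map_mul, ← map_mul]
      congr 2
      group
    have h2 : ∀ i : ℕ, ρ (x ^ i) v = μ ^ i • v := by
      intro i
      induction i with
      | zero => rw [pow_zero, pow_zero, map_one, one_smul, Module.End.one_apply]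
      | succ i ih =>
        rw [pow_succ, map_mul, Module.End.mul_apply, ← hTdef, (hWmem v).mp hv, map_smul, ih,
          smul_smul, pow_succ, mul_comm]
    rw [h1, hj, map_mul, Module.End.mul_apply, h2, hc, Module.algebraMap_end_apply, map_smul,
      map_smul, smul_smul]
  have hkill : ∀ g, g ∉ K → ∀ v ∈ W, P (ρ g v) = 0 := by
    intro g hg v hv
    obtain ⟨ν, hν⟩ := hmove g
    have hne : ν ≠ μ := by
      rintro rfl
      exact hg fun w hw => (hWmem _).mpr (hν w hw)
    have h1 : ν • P (ρ g v) = μ • P (ρ g v) := by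
      rw [← hPT, hν v hv, map_smul]
    have h2 : (ν - μ) • P (ρ g v) = 0 := by rw [sub_smul, h1, sub_self]
    exact (smul_eq_zero.mp h2).resolve_left (sub_ne_zero.mpr hne)
  have hWne : W ≠ ⊥ := hμ
  refine ⟨K, W, ?_⟩
  have hσ : ∀ k : K, ∀ v ∈ W, ρ k v ∈ W := fun k => k.2
  refine ⟨res (ρ.comp K.subtype) W hσ, ?_, ?_⟩
  · intro htop
    have h1 : W = ⊤ := hirr W (fun g => (htop ▸ Subgroup.mem_top g : g ∈ K)) hWne
    refine hx ⟨μ, ?_⟩
    ext v
    rw [Module.algebraMap_end_apply]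
    exact (hWmem v).mp (h1 ▸ Submodule.mem_top)
  · -- the sum of the conjugates of `P`
    set S : End E V := ∑ y : H, ρ y * P * ρ y⁻¹ with hS
    have hSv : ∀ v, S v = ∑ y : H, ρ y (P (ρ y⁻¹ v)) := by
      intro v
      rw [hS, LinearMap.sum_apply]
      rfl
    have hSW : ∀ v ∈ W, S v = (Nat.card K : E) • v := by
      intro v hv
      classical
      rw [hSv]
      have h1 : ∀ y : H, ρ y (P (ρ y⁻¹ v)) = if y ∈ K then v else 0 := by
        intro y
        split_ifs with hy
        · rw [hPW _ (K.inv_mem hy v hv), apply_inv]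
        · rw [hkill y⁻¹ (fun h => hy (by rw [← inv_inv y]; exact K.inv_mem h)) v hv, map_zero]
      rw [Finset.sum_congr rfl fun y _ => h1 y, ← Finset.sum_filter, Finset.sum_const,
        ← Nat.cast_smul_eq_nsmul E]
      congr 2
      rw [Nat.card_eq_fintype_card, Fintype.card_subtype]
    have hcomm : ∀ g v, S (ρ g v) = ρ g (S v) := by
      intro g v
      rw [hSv, hSv, map_sum]
      refine Fintype.sum_equiv (Equiv.mulLeft g⁻¹) _ _ fun h => ?_
      have h1 : ρ g (ρ (g⁻¹ * h) (P (ρ (g⁻¹ * h)⁻¹ v))) =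
          ρ (g * (g⁻¹ * h)) (P (ρ (g⁻¹ * h)⁻¹ v)) := by
        rw [map_mul ρ g]; rfl
      have h2 : ρ h⁻¹ (ρ g v) = ρ (g⁻¹ * h)⁻¹ v := by
        rw [mul_inv_rev, inv_inv, map_mul]; rfl
      rw [Equiv.coe_mulLeft, h1, mul_inv_cancel_left, h2]
    have hM : S.eigenspace (Nat.card K : E) = ⊤ := by
      refine hirr _ (fun g v hv => ?_) ?_
      · rw [Module.End.mem_eigenspace_iff] at hv ⊢
        rw [hcomm, hv, map_smul]
      · intro hbot
        refine hWne (eq_bot_iff.mpr fun v hv => ?_)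
        rw [← hbot, Module.End.mem_eigenspace_iff]
        exact hSW v hv
    have hS1 : S = (Nat.card K : E) • 1 := by
      ext v
      have : v ∈ S.eigenspace (Nat.card K : E) := hM ▸ Submodule.mem_top
      rw [Module.End.mem_eigenspace_iff] at this
      rw [this]
      rfl
    have hcK : (Nat.card K : E) ≠ 0 := Nat.cast_ne_zero.mpr Nat.card_pos.ne'
    have htr : ∀ h : H, LinearMap.trace E V (ρ h * P) =
        ext0 K (fun k => LinearMap.trace E W (res (ρ.comp K.subtype) W hσ k)) h := by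
      intro h
      by_cases hh : h ∈ K
      · rw [ext0_of hh, trace_mul_proj (ρ h) P W hPW hh fun v => hh _ (hPr v)]
        rfl
      · rw [ext0_not hh]
        have h1 : ρ h * P = ρ h * P * P := by
          ext v
          change ρ h (P v) = ρ h (P (P v))
          rw [hPW _ (hPr v)]
        rw [h1, LinearMap.trace_mul_comm]
        have h2 : P * (ρ h * P) = 0 := by
          ext v
          exact hkill h hh _ (hPr v)
        rw [h2, map_zero]
    funext g
    rw [ind_eq]
    have h3 : ρ g = (Nat.card K : E)⁻¹ • (ρ g * S) := by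
      rw [hS1, mul_smul_comm, mul_one, smul_smul, inv_mul_cancel₀ hcK, one_smul]
    rw [h3, map_smul, smul_eq_mul]
    congr 1
    rw [hS, Finset.mul_sum, map_sum]
    refine Finset.sum_congr rfl fun y _ => ?_
    rw [← htr, ← mul_assoc, LinearMap.trace_mul_comm, ← mul_assoc, ← mul_assoc, ← map_mul,
      ← map_mul]

end rep

theorem main (hHY : HY) (E : Type) [Field E] [CharZero E] (m : ℕ) :
    ∀ (H : Type) [Group H] [Fintype H], Fintype.card H = m → Hyp H →
    (∃ N : ℕ, N ≠ 0 ∧ Fintype.card H ∣ N ∧ ∃ ζ : E, IsPrimitiveRoot ζ N) →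
    ∀ (d : ℕ) (V : Type) [AddCommGroup V] [Module E V] [FiniteDimensional E V],
      finrank E V = d → ∀ ρ : H →* End E V, (fun g => LinearMap.trace E V (ρ g)) ∈ Vir H E := by
  induction m using Nat.strong_induction_on with
  | _ m ihm =>
  intro H _ _ hcard hH hroot d
  induction d using Nat.strong_induction_on with
  | _ d ihd =>
  intro V _ _ _ hd ρ
  rcases subsingleton_or_nontrivial V with hV | hV
  · have : (fun g => LinearMap.trace E V (ρ g)) = 0 := by
      funext g
      have h0 : ρ g = 0 := by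
        ext v
        exact Subsingleton.elim _ _
      rw [h0, map_zero]
      rfl
    rw [this]
    exact zero_mem _
  by_cases hirr : ∀ W : Submodule E V, (∀ g, ∀ v ∈ W, ρ g v ∈ W) → W ≠ ⊥ → W = ⊤
  · by_cases htop : scal ρ = ⊤
    · exact scal_top ρ htop
    · obtain ⟨x, hx, hconj⟩ := exists_x ρ hH htop
      obtain ⟨K, W, σ, hK, hσ⟩ := clifford ρ hirr hroot hx hconj
      rw [hσ]
      classical
      have hdvd : Fintype.card K ∣ Fintype.card H := by
        rw [← Nat.card_eq_fintype_card, ← Nat.card_eq_fintype_card]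
        exact Subgroup.card_subgroup_dvd_card K
      refine ind_mem_vir K (ihm (Fintype.card K) ?_ K rfl
        (hHY H K K.subtype K.subtype_injective hH) ?_ (finrank E W) W rfl σ)
      · rw [← hcard]
        refine lt_of_le_of_ne (Nat.le_of_dvd Fintype.card_pos hdvd) fun h => hK ?_
        refine Subgroup.eq_top_of_card_eq K ?_
        rw [Nat.card_eq_fintype_card, Nat.card_eq_fintype_card, h]
      · obtain ⟨N, hN, hd, hz⟩ := hroot
        exact ⟨N, hN, hdvd.trans hd, hz⟩
  · push Not at hirr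
    obtain ⟨W, hW, hbot, htop⟩ := hirr
    obtain ⟨U, hU, hdim, htr⟩ := exists_compl ρ W hW
    have hWpos : 0 < finrank E W := by
      rw [Module.finrank_pos_iff]
      exact Submodule.nontrivial_iff_ne_bot.mpr hbot
    have hWlt : finrank E W < finrank E V := Submodule.finrank_lt htop
    have h1 := ihd (finrank E W) (by omega) W rfl (res ρ W hW)
    have h2 := ihd (finrank E U) (by omega) U rfl (res ρ U hU)
    have h3 := add_mem h1 h2
    convert h3 using 1
    funext g
    exact htr g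

end B3

/-- hyperelementary groups are monomial -/
theorem b3_of : HY → B3 := by
  intro hHY H _ _ E _ _ hH hroot χ hχ
  obtain ⟨d, ρ, hρ⟩ := hχ
  let ρ' : H →* Module.End E (Fin d → E) :=
    { toFun := fun g => Matrix.toLin' (ρ g)
      map_one' := by rw [map_one, Matrix.toLin'_one]; rfl
      map_mul' := fun g h => by rw [map_mul, Matrix.toLin'_mul]; rfl }
  have h1 := B3.main hHY E (Fintype.card H) H rfl hH hroot d (Fin d → E) (by simp) ρ'
  convert h1 using 1
  funext g
  rw [hρ]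
  exact (Matrix.trace_toLin'_eq (ρ g)).symm

end

end Pool.Agent.GC
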