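import Pool.Agent.Lib.GC.IndT

/-!
# The induced function of a linear character is a character, and its dual is induced
-/

namespace Pool.Agent.GC

noncomputable section

variable {G : Type} [Group G] {E : Type} [Field E]

theorem ext0_mul_right {H : Subgroup G} (ψ : H →* E) {a c : G} (hc : c ∈ H) :
    ext0 H ψ (a * c) = ext0 H ψ a * ext0 H ψ c := by
  by_cases ha : a ∈ H
  · rw [ext0_of ha, ext0_of hc, ext0_of (H.mul_mem ha hc), ← map_mul]
    rfl
  · have h : a * c ∉ H := fun h => ha ((H.mul_mem_cancel_right hc).1 h)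
    rw [ext0_not ha, ext0_not h, zero_mul]

theorem ext0_conj {H : Subgroup G} (ψ : H →* E) (a : G) {c : G} (hc : c ∈ H) :
    ext0 H ψ (c⁻¹ * a * c) = ext0 H ψ a := by
  rw [ext0_mul_right ψ hc]
  by_cases ha : a ∈ H
  · rw [ext0_mul_right ψ ha, mul_right_comm, ← ext0_mul_right ψ hc, inv_mul_cancel,
      ext0_of H.one_mem, ext0_of ha]
    have : (⟨1, H.one_mem⟩ : H) = 1 := rfl
    rw [this, map_one, one_mul]
  · have h : c⁻¹ * a ∉ H := fun h => ha ((H.mul_mem_cancel_left (H.inv_mem hc)).1 h)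
    rw [ext0_not ha, ext0_not h, zero_mul]

/-- `(q, h) ↦ q.out * h`. -/
theorem bij_out (H : Subgroup G) :
    Function.Bijective fun q : (G ⧸ H) × H => (q.1.out * q.2 : G) := by
  constructor
  · rintro ⟨q, h⟩ ⟨q', h'⟩ e
    simp only at e
    have e1 : q = q' := by
      have h1 : ((q.out * h : G) : G ⧸ H) = q := by
        rw [QuotientGroup.mk_mul_of_mem _ h.2]
        exact QuotientGroup.out_eq' q
      have h2 : ((q'.out * h' : G) : G ⧸ H) = q' := by
        rw [QuotientGroup.mk_mul_of_mem _ h'.2]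
        exact QuotientGroup.out_eq' q'
      rw [← h1, ← h2, e]
    subst e1
    have := mul_left_cancel e
    rw [Subtype.ext this]
  · intro x
    have h : ((x : G ⧸ H).out)⁻¹ * x ∈ H :=
      QuotientGroup.eq.1 (QuotientGroup.out_eq' (x : G ⧸ H))
    exact ⟨((x : G ⧸ H), ⟨_, h⟩), by simp⟩

theorem ind_sum_out [Fintype G] [CharZero E] (H : Subgroup G) [Fintype (G ⧸ H)] (ψ : H →* E)
    (g : G) : ind H ψ g = ∑ q : G ⧸ H, ext0 H ψ (q.out⁻¹ * g * q.out) := by
  classical
  have : Fintype H := Fintype.ofFinite H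
  rw [ind_eq, ← (bij_out H).sum_comp (fun x => ext0 H ψ (x⁻¹ * g * x)), Fintype.sum_prod_type]
  have h1 : ∀ q : G ⧸ H, ∑ h : H, ext0 H ψ ((q.out * (h : G))⁻¹ * g * (q.out * h)) =
      (Nat.card H : E) * ext0 H ψ (q.out⁻¹ * g * q.out) := by
    intro q
    have h2 : ∀ h : H, ext0 H ψ ((q.out * (h : G))⁻¹ * g * (q.out * h)) =
        ext0 H ψ (q.out⁻¹ * g * q.out) := by
      intro h
      rw [← ext0_conj ψ (q.out⁻¹ * g * q.out) h.2]
      congr 1
      group
    rw [Finset.sum_congr rfl fun h _ => h2 h, Finset.sum_const, Finset.card_univ, nsmul_eq_mul,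
      Nat.card_eq_fintype_card]
  rw [Finset.sum_congr rfl fun q _ => h1 q, ← Finset.mul_sum, ← mul_assoc, inv_mul_cancel₀,
    one_mul]
  exact Nat.cast_ne_zero.mpr Nat.card_pos.ne'

theorem mem_iff_smul (H : Subgroup G) (g : G) (q q' : G ⧸ H) :
    q.out⁻¹ * g * q'.out ∈ H ↔ q = g • q' := by
  rw [mul_assoc, ← QuotientGroup.eq]
  rw [QuotientGroup.out_eq']
  have : ((g * q'.out : G) : G ⧸ H) = g • q' := by
    conv_rhs => rw [← QuotientGroup.out_eq' q']
    rfl
  rw [this]

/-- The monomial matrices of an induced representation. -/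
def monoRep (H : Subgroup G) [Fintype (G ⧸ H)] [DecidableEq (G ⧸ H)] (ψ : H →* E) :
    G →* Matrix (G ⧸ H) (G ⧸ H) E where
  toFun g := Matrix.of fun q q' => ext0 H ψ (q.out⁻¹ * g * q'.out)
  map_one' := by
    ext q q'
    rw [Matrix.of_apply, Matrix.one_apply]
    by_cases h : q = q'
    · subst h
      rw [if_pos rfl, mul_one, inv_mul_cancel, ext0_of H.one_mem]
      exact map_one ψ
    · rw [if_neg h, ext0_not]
      rw [mem_iff_smul, one_smul]
      exact h
  map_mul' g g' := by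
    ext q q''
    rw [Matrix.of_apply, Matrix.mul_apply, Finset.sum_eq_single (g' • q'')]
    · rw [Matrix.of_apply, Matrix.of_apply, ← ext0_mul_right ψ ((mem_iff_smul H g' _ _).2 rfl)]
      congr 1
      group
    · intro q' _ hq'
      rw [Matrix.of_apply, Matrix.of_apply, ext0_not (x := q'.out⁻¹ * g' * q''.out), mul_zero]
      rw [mem_iff_smul]
      exact hq'
    · intro h
      exact absurd (Finset.mem_univ _) h

theorem duRow : DU := by
  intro G _ _ E _ _ H ψ
  classical
  have : Fintype (G ⧸ H) := Fintype.ofFinite _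
  constructor
  · let e := Fintype.equivFin (G ⧸ H)
    refine ⟨Fintype.card (G ⧸ H),
      ((Matrix.reindexAlgEquiv E E e : Matrix (G ⧸ H) (G ⧸ H) E →* _)).comp (monoRep H ψ), ?_⟩
    intro g
    rw [ind_sum_out]
    simp only [Matrix.trace, Matrix.diag]
    rw [← e.sum_comp]
    refine Finset.sum_congr rfl fun q _ => ?_
    simp [monoRep]
  · refine ⟨H, ⟨⟨fun h => ψ h⁻¹, by simp⟩, fun a b => by
      simp only [mul_inv_rev, map_mul]
      exact mul_comm _ _⟩, ?_⟩
    funext g
    show ind H ψ g⁻¹ = _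
    rw [ind_eq, ind_eq]
    congr 1
    refine Finset.sum_congr rfl fun x _ => ?_
    have e : x⁻¹ * g⁻¹ * x = (x⁻¹ * g * x)⁻¹ := by group
    rw [e]
    by_cases h : x⁻¹ * g * x ∈ H
    · rw [ext0_of h, ext0_of (H.inv_mem h)]
      rfl
    · rw [ext0_not h, ext0_not (fun h' => h (by simpa using H.inv_mem h'))]

end

end Pool.Agent.GC
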