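import Pool.Agent.Lib.CMN.Defs

/-!
# Determinant lines of Jacobians of Galois covers

`G` is a finite group acting on a curve `C`, `g` is the list of the branch monodromies of
`C → C / G`; `E = F(√-D)` is a CM field which contains the roots of unity of order `|G|`.  The
first cohomology of `C` with coefficients in `E` is the sum of the `ρ ⊗ M_ρ`, over the irreducible
representations `ρ` of `G` over `E`; for a character `χ = ∑ n_ρ ρ` put `M_χ = ⊕ M_ρ ^ n_ρ`.
Everything below is explicit.
-/

namespace Pool.Agent.GC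

noncomputable section

section characters

variable {G : Type} [Group G] [Fintype G] {E : Type} [Field E]

open Classical in
/-- The induced function `g ↦ |H|⁻¹ ∑ ψ (x⁻¹ g x)`, the sum over the `x` with `x⁻¹ g x ∈ H`. -/
def ind (H : Subgroup G) (ψ : H → E) (g : G) : E :=
  (Nat.card H : E)⁻¹ *
    ∑ x : G, if h : x⁻¹ * g * x ∈ H then ψ ⟨x⁻¹ * g * x, h⟩ else 0

/-- `χ` is the character of a representation of `G` on `E ^ d`, for some `d`. -/
def IsChar (χ : G → E) : Prop :=
  ∃ (d : ℕ) (ρ : G →* Matrix (Fin d) (Fin d) E), ∀ g, χ g = (ρ g).trace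

/-- The dual character. -/
def dual (χ : G → E) : G → E := fun g => χ g⁻¹

/-- The multiplicity of the eigenvalue `l` of `g` in a representation with character `χ`, for a root
of unity `l` of order dividing `|G|`. -/
def mult (χ : G → E) (g : G) (l : E) : E :=
  (Fintype.card G : E)⁻¹ * ∑ k ∈ Finset.range (Fintype.card G), χ (g ^ k) * (l ^ k)⁻¹

/-- `ang z ∈ [0,1)`, with `z = |z| exp (2 π i (ang z))`. -/
def ang (z : ℂ) : ℝ := Int.fract (z.arg / (2 * Real.pi))

open Classical in
/-- The contribution of one branch point with monodromy `g` to `h^{1,0} - h^{0,1}` of `M_χ`, at the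
embedding `φ` of `E`: the sum of the `2 ang(φ l) - 1` over the eigenvalues `l ≠ 1` of `g`, with
their multiplicities (Chevalley and Weil). -/
def sig1 (φ : E →+* ℂ) (χ : G → E) (g : G) : ℂ :=
  ∑ l ∈ (Polynomial.nthRootsFinset (Fintype.card G) (1 : E)).erase 1,
    φ (mult χ g l) * (2 * ang (φ l) - 1 : ℝ)

/-- The local monodromy of `ψ` at the point of `C / H` given by an orbit of `g` on `G / H`: with `e`
the length of the orbit and `x H` one of its members, it is `ψ (x⁻¹ g ^ e x)`. -/
def loc (H : Subgroup G) (ψ : H →* E) (g : G)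
    (q : Quotient (MulAction.orbitRel (Subgroup.zpowers g) (G ⧸ H))) : E :=
  ψ ⟨q.out.out⁻¹ * g ^ Function.minimalPeriod (g • ·) q.out * q.out.out,
    QuotientGroup.out_conj_pow_minimalPeriod_mem H g q.out⟩

open Classical in
/-- The nontrivial local monodromies of `ψ`, over all branch points. -/
def locs (H : Subgroup G) (ψ : H →* E) (g : List G) : Multiset E :=
  (g.map fun x =>
    (Finset.univ : Finset (Quotient (MulAction.orbitRel (Subgroup.zpowers x) (G ⧸ H)))).val.map
      (loc H ψ x)).sum.filter (· ≠ 1)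

end characters

section family

variable {F : Type} [Field F] [NumberField F] {E : Type} [Field E]
  {ι : Type} [Fintype ι] [DecidableEq ι] {G : ι → Type} [∀ s, Group (G s)] [∀ s, Fintype (G s)]

open Classical in
/-- The CM type of the dual of the Fermat line `V(l, m, (l m)⁻¹)`, a line in the first cohomology of a
Fermat curve: `true` if the sum of the three angles is one, `false` if it is two; `emb v` is the
embedding of `E` over the place `v` of `F` with `√-D ↦ i √(v D)`. -/
def J (emb : (F →+* ℝ) → (E →+* ℂ)) (l m : E) : CMN.CMType F :=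
  fun v => decide (ang (emb v l) + ang (emb v m) < 1)

/-- The sum over the members of `T` of `1` for a CM type which contains `emb v` and of `-1` for one
which does not. -/
def sigCM (v : F →+* ℝ) (T : Multiset (CMN.CMType F)) : ℂ :=
  (T.map fun Φ => if Φ v = true then (1 : ℂ) else -1).sum

/-- `h^{1,0} - h^{0,1}` of the sum of the `M_χ(s)`, at the embedding `φ`, for covers with groups
`G s` and branch monodromies `g s`. -/
def sig (g : ∀ s, List (G s)) (φ : E →+* ℂ) (χ : ∀ s, G s → E) : ℂ :=
  ∑ s, ((g s).map (sig1 φ (χ s))).sum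

/-- The line `⊗ det M_χ(s) ⊗ L_T` is of type `(p, p)` at all embeddings; here `L_T` is the
product over `Φ ∈ T` of the lines of CM type `Φ` in the first cohomology of CM abelian
varieties.  (The embeddings of `E` are the `emb v` and their complex conjugates, for which the left
hand side changes sign.) -/
def Balanced (emb : (F →+* ℝ) → (E →+* ℂ)) (g : ∀ s, List (G s)) (χ : ∀ s, G s → E)
    (T : Multiset (CMN.CMType F)) : Prop :=
  ∀ v : F →+* ℝ, sig g (emb v) χ + sigCM v T = 0

/-- The triples `(χ, L, T)` for which the line `⊗ det M_χ(s) ⊗ V(L) ⊗ L_T` is spanned by an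
algebraic class, by the following constructions; `V(L)` is the Fermat line of a multiset `L` of
roots of unity with product one.  Here `χ` may be virtual: then `det M_χ` is a quotient of
determinants. -/
inductive IsAlg (v₁ : F →+* ℝ) (D : F) (emb : (F →+* ℝ) → (E →+* ℂ)) (g : ∀ s, List (G s)) :
    (∀ s, G s → E) → Multiset E → Multiset (CMN.CMType F) → Prop
  /-- the fibre over the canonical class of `Sym^r (C / H) → Pic`: the determinant of `M_ψ` for a
  linear character `ψ` of a subgroup `H` is the Fermat line of the local monodromies of `ψ` -/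
  | sym (s : ι) (H : Subgroup (G s)) (ψ : H →* E) :
      IsAlg v₁ D emb g (Pi.single s (ind H ψ)) ((locs H ψ (g s)).map (·⁻¹)) 0
  /-- divisor classes on products of Fermat curves and CM abelian varieties -/
  | jac (N : ℕ) (l m : E) : N ≠ 0 → l ^ N = 1 → m ^ N = 1 → l ≠ 1 → m ≠ 1 → l * m ≠ 1 →
      IsAlg v₁ D emb g 0 {l, m, (l * m)⁻¹} {J emb l m}
  /-- divisor classes and compact ball quotients in CM abelian varieties -/
  | ball (T : Multiset (CMN.CMType F)) : CMN.Balanced T → CMN.Alg v₁ D T →
      IsAlg v₁ D emb g 0 0 T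
  /-- products -/
  | add (χ χ' : ∀ s, G s → E) (L L' : Multiset E) (T T' : Multiset (CMN.CMType F)) :
      IsAlg v₁ D emb g χ L T → IsAlg v₁ D emb g χ' L' T' →
        IsAlg v₁ D emb g (χ + χ') (L + L') (T + T')
  /-- contraction of `M_σ` with its dual -/
  | cut (χ σ : ∀ s, G s → E) (L : Multiset E) (T : Multiset (CMN.CMType F)) :
      (∀ s, IsChar (σ s)) → IsAlg v₁ D emb g (χ + σ + fun s => dual (σ s)) L T →
        IsAlg v₁ D emb g χ L T
  /-- the inductive structure of Fermat varieties (Shioda and Katsura) -/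
  | cutL (χ : ∀ s, G s → E) (L : Multiset E) (T : Multiset (CMN.CMType F)) (l : E) : l ≠ 1 →
      IsAlg v₁ D emb g χ (L + {l, l⁻¹}) T → IsAlg v₁ D emb g χ L T
  /-- contraction with a divisor class of a CM abelian variety -/
  | cutT (χ : ∀ s, G s → E) (L : Multiset E) (T : Multiset (CMN.CMType F)) (Φ : CMN.CMType F) :
      IsAlg v₁ D emb g χ L (T + {Φ, CMN.bar Φ}) → IsAlg v₁ D emb g χ L T

end family

/-- The final sentence. -/
def FINAL : Prop :=
  ∀ (F : Type) [Field F] [NumberField F] [NumberField.IsTotallyReal F] (v₁ : F →+* ℝ) (D : F),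
    IsIntegral ℤ D → (∀ v : F →+* ℝ, 0 < v D) →
    ∀ (E : Type) [Field E] [Algebra F E] (δ : E), δ ^ 2 = -algebraMap F E D →
    (∀ x : E, ∃ a b : F, x = algebraMap F E a + algebraMap F E b * δ) →
    ∀ emb : (F →+* ℝ) → (E →+* ℂ), (∀ v x, emb v (algebraMap F E x) = (v x : ℂ)) →
    (∀ v, emb v δ = Complex.I * (√(v D) : ℂ)) →
    ∀ (ι : Type) [Fintype ι] [DecidableEq ι] (G : ι → Type) [∀ s, Group (G s)]
      [∀ s, Fintype (G s)], (∀ s, ∃ ζ : E, IsPrimitiveRoot ζ (Fintype.card (G s))) →
    ∀ g : ∀ s, List (G s), (∀ s, (g s).prod ∈ commutator (G s)) →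
    ∀ χ : ∀ s, G s → E, (∀ s, IsChar (χ s)) →
    ∀ T : Multiset (CMN.CMType F), IsAlg v₁ D emb g χ 0 T ↔ Balanced emb g χ T

end

end Pool.Agent.GC
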