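import Pool.Agent.Lib.GC.Rows

/-!
# GC, row S0: the signature is additive, and odd under duality
-/

set_option autoImplicit false

namespace Pool.Agent.GC

open Finset

theorem mult_add {G : Type} [Group G] [Fintype G] {E : Type} [Field E] (χ χ' : G → E) (g : G)
    (l : E) : mult (χ + χ') g l = mult χ g l + mult χ' g l := by
  unfold mult
  rw [← mul_add, ← Finset.sum_add_distrib]
  congr 1
  apply Finset.sum_congr rfl
  intro k _
  rw [Pi.add_apply]
  ring

/-- the sum over a period of a periodic sequence, backwards -/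
theorem sum_range_neg {E : Type} [AddCommMonoid E] (N : ℕ) (f : ℕ → E) (h0 : f N = f 0) :
    ∑ k ∈ range N, f (N - k) = ∑ k ∈ range N, f k := by
  rcases Nat.eq_zero_or_pos N with rfl | hN
  · simp
  · have h1 : ∑ k ∈ range N, f (N - k) = ∑ k ∈ range N, f (N - (N - 1 - k)) := by
      rw [← Finset.sum_range_reflect]
    rw [h1]
    have h2 : ∀ k ∈ range N, f (N - (N - 1 - k)) = f (k + 1) := by
      intro k hk
      rw [Finset.mem_range] at hk
      congr 1
      omega
    rw [Finset.sum_congr rfl h2]
    have h3 := Finset.sum_range_succ' f N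
    have h4 := Finset.sum_range_succ f N
    rw [h3, h0] at h4
    obtain ⟨M, rfl⟩ : ∃ M, N = M + 1 := ⟨N - 1, by omega⟩
    rw [Finset.sum_range_succ, Finset.sum_range_succ' f M, h0]

theorem mult_dual {G : Type} [Group G] [Fintype G] {E : Type} [Field E] (χ : G → E) (g : G)
    (l : E) (hl : l ^ Fintype.card G = 1) : mult (dual χ) g l = mult χ g l⁻¹ := by
  unfold mult
  congr 1
  have hl0 : l ≠ 0 := by
    rintro rfl
    rw [zero_pow Fintype.card_ne_zero] at hl
    exact zero_ne_one hl
  rw [← sum_range_neg (Fintype.card G) (fun k => χ (g ^ k) * (l⁻¹ ^ k)⁻¹)]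
  · apply Finset.sum_congr rfl
    intro k hk
    rw [Finset.mem_range] at hk
    have h1 : g ^ (Fintype.card G - k) = (g ^ k)⁻¹ := by
      rw [eq_inv_iff_mul_eq_one, ← pow_add, Nat.sub_add_cancel hk.le, pow_card_eq_one]
    have h2 : (l⁻¹ ^ (Fintype.card G - k))⁻¹ = (l ^ k)⁻¹ := by
      rw [inv_pow, inv_inv]
      apply eq_inv_of_mul_eq_one_left
      rw [← pow_add, Nat.sub_add_cancel hk.le, hl]
    simp only [dual, h1, h2]
  · simp [pow_card_eq_one, hl]

theorem ang_inv_add (z : ℂ) (h1 : z ≠ 1) (hz : ‖z‖ = 1) : ang z⁻¹ = 1 - ang z := by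
  have harg : z.arg ≠ 0 := by
    intro h
    apply h1
    have h2 := Complex.norm_mul_exp_arg_mul_I z
    rw [h, hz] at h2
    simpa using h2.symm
  have hpi := Real.pi_pos
  unfold ang
  by_cases hp : z.arg = Real.pi
  · have h2 : z⁻¹.arg = Real.pi := by
      rw [Complex.arg_inv, if_pos hp]
    rw [h2, hp]
    have h3 : Real.pi / (2 * Real.pi) = 1 / 2 := by
      field_simp
    rw [h3]
    have h4 : Int.fract (1 / 2 : ℝ) = 1 / 2 := by
      rw [Int.fract_eq_self]
      norm_num
    rw [h4]
    norm_num
  · have h2 : z⁻¹.arg = -z.arg := by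
      rw [Complex.arg_inv, if_neg hp]
    rw [h2, neg_div, Int.fract_neg]
    intro h3
    rw [Int.fract_eq_iff] at h3
    obtain ⟨_, _, n, hn⟩ := h3
    have h4 : z.arg = n * (2 * Real.pi) := by
      field_simp at hn
      linarith
    have h5 := Complex.neg_pi_lt_arg z
    have h6 := Complex.arg_le_pi z
    have h7 : n = 0 := by
      have h8 : (-1 : ℝ) < n := by
        by_contra h
        have : (n : ℝ) * (2 * Real.pi) ≤ -1 * (2 * Real.pi) := by
          apply mul_le_mul_of_nonneg_right (not_lt.mp h) (by positivity)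
        linarith
      have h9 : (n : ℝ) < 1 := by
        by_contra h
        have : 1 * (2 * Real.pi) ≤ (n : ℝ) * (2 * Real.pi) := by
          apply mul_le_mul_of_nonneg_right (not_lt.mp h) (by positivity)
        linarith
      have h10 : (-1 : ℤ) < n := by exact_mod_cast h8
      have h11 : n < (1 : ℤ) := by exact_mod_cast h9
      omega
    apply harg
    rw [h4, h7]
    simp

theorem norm_rootU {z : ℂ} {N : ℕ} (hN : N ≠ 0) (h : z ^ N = 1) : ‖z‖ = 1 :=
  Complex.norm_eq_one_of_pow_eq_one h hN

theorem s0Row : S0 := by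
  classical
  intro G _ _ E _ φ g
  constructor
  · intro χ χ'
    unfold sig1
    rw [← Finset.sum_add_distrib]
    apply Finset.sum_congr rfl
    intro l _
    rw [mult_add, map_add]
    ring
  · intro χ
    unfold sig1
    rw [← Finset.sum_neg_distrib]
    have hN : 0 < Fintype.card G := Fintype.card_pos
    refine Finset.sum_bij' (fun l _ => l⁻¹) (fun l _ => l⁻¹) ?_ ?_ ?_ ?_ ?_
    · intro l hl
      rw [Finset.mem_erase, Polynomial.mem_nthRootsFinset hN] at hl ⊢
      exact ⟨fun h => hl.1 (inv_eq_one.mp h), by rw [inv_pow, hl.2, inv_one]⟩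
    · intro l hl
      rw [Finset.mem_erase, Polynomial.mem_nthRootsFinset hN] at hl ⊢
      exact ⟨fun h => hl.1 (inv_eq_one.mp h), by rw [inv_pow, hl.2, inv_one]⟩
    · intro l _
      exact inv_inv l
    · intro l _
      exact inv_inv l
    · intro l hl
      rw [Finset.mem_erase, Polynomial.mem_nthRootsFinset hN] at hl
      rw [mult_dual χ g l hl.2, map_inv₀, ang_inv_add]
      · push_cast
        ring
      · intro h
        apply hl.1
        exact φ.injective (by rw [h, map_one])
      · apply norm_rootU hN.ne'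
        rw [← map_pow, hl.2, map_one]

end Pool.Agent.GC
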