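import Pool.Agent.Lib.GC.Rows

/-!
# GC, row S1: the signature of a monomial character
-/

set_option autoImplicit false

namespace Pool.Agent.GC

open Finset

theorem period_dvd {G : Type} [Group G] [Fintype G] (H : Subgroup G) (g : G) (q : G ⧸ H) :
    Function.minimalPeriod (g • ·) q ∣ Fintype.card G := by
  apply Function.IsPeriodicPt.minimalPeriod_dvd
  unfold Function.IsPeriodicPt Function.IsFixedPt
  rw [smul_iterate, pow_card_eq_one]
  exact one_smul G q

theorem loc_pow {G : Type} [Group G] [Fintype G] {E : Type} [Field E] (H : Subgroup G)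
    (ψ : H →* E) (g : G) (q : Quotient (MulAction.orbitRel (Subgroup.zpowers g) (G ⧸ H))) :
    loc H ψ g q ^ (Fintype.card G / Function.minimalPeriod (g • ·) q.out) = 1 := by
  have hd := period_dvd H g q.out
  unfold loc
  rw [← map_pow, ← map_one ψ]
  congr 1
  rw [Subtype.ext_iff, SubmonoidClass.coe_pow, OneMemClass.coe_one]
  simp only
  have h : ∀ (x y : G) (n : ℕ), (x⁻¹ * y * x) ^ n = x⁻¹ * y ^ n * x := by
    intro x y n
    have := conj_pow (i := n) (a := x⁻¹) (b := y)
    rw [inv_inv] at this
    exact this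
  rw [h, ← pow_mul, Nat.mul_div_cancel' hd, pow_card_eq_one, mul_one, inv_mul_cancel]

open Classical in
theorem sig1_ind (s1a : S1a) (s1b : S1b) {G : Type} [Group G] [Fintype G] {E : Type} [Field E]
    (hζ : ∃ ζ : E, IsPrimitiveRoot ζ (Fintype.card G)) (H : Subgroup G) (ψ : H →* E)
    (φ : E →+* ℂ) (g : G) : sig1 φ (ind H ψ) g =
      ∑ q : Quotient (MulAction.orbitRel (Subgroup.zpowers g) (G ⧸ H)), dev φ (loc H ψ g q) := by
  have hE : CharZero E := (RingHom.charZero_iff φ.injective).mpr inferInstance
  have hN : 0 < Fintype.card G := Fintype.card_pos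
  unfold sig1
  have h1 : ∀ l ∈ (Polynomial.nthRootsFinset (Fintype.card G) (1 : E)).erase 1,
      φ (mult (ind H ψ) g l) * ((2 * ang (φ l) - 1 : ℝ) : ℂ) =
      ∑ q : Quotient (MulAction.orbitRel (Subgroup.zpowers g) (G ⧸ H)),
        if l ^ Function.minimalPeriod (g • ·) q.out = loc H ψ g q then
          ((2 * ang (φ l) - 1 : ℝ) : ℂ) else 0 := by
    intro l hl
    rw [Finset.mem_erase, Polynomial.mem_nthRootsFinset hN] at hl
    rw [s1a G E H ψ g l hl.2, map_sum, Finset.sum_mul]
    apply Finset.sum_congr rfl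
    intro q _
    split_ifs <;> simp
  rw [Finset.sum_congr rfl h1, Finset.sum_comm]
  apply Finset.sum_congr rfl
  intro q _
  rw [← Finset.sum_filter]
  exact s1b E φ (Fintype.card G) _ hN.ne' (period_dvd H g q.out) hζ _ (loc_pow H ψ g q)

open Classical in
theorem sum_filter_dev {E : Type} [Field E] (φ : E →+* ℂ) (L : Multiset E) :
    ((L.filter (· ≠ 1)).map (dev φ)).sum = (L.map (dev φ)).sum := by
  induction L using Multiset.induction_on with
  | empty => simp
  | cons z L ih =>
    by_cases h : z = 1
    · rw [Multiset.filter_cons_of_neg (p := fun x : E => x ≠ 1) _ (by simpa using h), ih,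
        Multiset.map_cons, Multiset.sum_cons]
      simp [dev, h]
    · rw [Multiset.filter_cons_of_pos (p := fun x : E => x ≠ 1) _ h, Multiset.map_cons,
        Multiset.sum_cons, ih, Multiset.map_cons, Multiset.sum_cons]

theorem s1_of (s1a : S1a) (s1b : S1b) : S1 := by
  classical
  intro G _ _ E _ hζ H ψ φ g
  unfold locs
  rw [sum_filter_dev]
  induction g with
  | nil => simp
  | cons x g ih =>
    rw [List.map_cons, List.sum_cons, List.map_cons, List.sum_cons, Multiset.map_add,
      Multiset.sum_add, ← ih, sig1_ind s1a s1b hζ H ψ φ x]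
    congr 1
    rw [Multiset.map_map]
    rfl

end Pool.Agent.GC
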