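import Pool.Agent.Lib.GC.DU

/-!
# Row S1a: multiplicities of the eigenvalues in an induced representation
-/

namespace Pool.Agent.GC

noncomputable section

namespace S1a

/-- The sum over the multiples of `e`. -/
theorem sum_mul {E : Type} [Field E] {N e : ℕ} (he : e ∣ N) (he0 : 0 < e) (F : ℕ → E)
    (hF : ∀ k, ¬ e ∣ k → F k = 0) :
    ∑ k ∈ Finset.range N, F k = ∑ j ∈ Finset.range (N / e), F (e * j) := by
  obtain ⟨M, rfl⟩ := he
  rw [Nat.mul_div_cancel_left _ he0]
  have h1 : ∑ j ∈ Finset.range M, F (e * j) =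
      ∑ k ∈ (Finset.range M).image (fun j => e * j), F k := by
    rw [Finset.sum_image]
    intro a _ b _ hab
    exact Nat.eq_of_mul_eq_mul_left he0 hab
  rw [h1]
  symm
  apply Finset.sum_subset
  · intro k hk
    rw [Finset.mem_image] at hk
    obtain ⟨j, hj, rfl⟩ := hk
    rw [Finset.mem_range] at hj ⊢
    exact Nat.mul_lt_mul_of_pos_left hj he0
  · intro k hk hk'
    apply hF
    rintro ⟨j, rfl⟩
    apply hk'
    rw [Finset.mem_image]
    refine ⟨j, ?_, rfl⟩
    rw [Finset.mem_range] at hk ⊢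
    exact lt_of_mul_lt_mul_left hk (Nat.zero_le e)

/-- The sum of the powers of a root of unity. -/
theorem sum_pow {E : Type} [Field E] {M : ℕ} {a : E} (ha : a ^ M = 1) [Decidable (a = 1)] :
    ∑ j ∈ Finset.range M, a ^ j = if a = 1 then (M : E) else 0 := by
  split_ifs with h
  · rw [h]
    simp
  · have h1 := mul_geom_sum a M
    rw [ha, sub_self] at h1
    exact (mul_eq_zero.1 h1).resolve_left (sub_ne_zero.2 h)

variable {G : Type} [Group G] {E : Type} [Field E]

theorem ext0_one (H : Subgroup G) (ψ : H →* E) : ext0 H ψ 1 = 1 := by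
  rw [ext0_of H.one_mem]
  exact map_one ψ

theorem ext0_pow {H : Subgroup G} (ψ : H →* E) {a : G} (ha : a ∈ H) (j : ℕ) :
    ext0 H ψ (a ^ j) = ext0 H ψ a ^ j := by
  induction j with
  | zero => rw [pow_zero, pow_zero, ext0_one]
  | succ j ih => rw [pow_succ, ext0_mul_right ψ ha, ih, pow_succ]

theorem conj_pow' (x g : G) (k : ℕ) : (x⁻¹ * g * x) ^ k = x⁻¹ * g ^ k * x := by
  have := conj_pow (a := x⁻¹) (b := g) (i := k)
  simpa using this

/-- The period. -/
abbrev per (H : Subgroup G) (g : G) (q : G ⧸ H) : ℕ := Function.minimalPeriod (g • ·) q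

/-- The local monodromy. -/
def zz (H : Subgroup G) (ψ : H →* E) (g : G) (q : G ⧸ H) : E :=
  ext0 H ψ (q.out⁻¹ * g ^ per H g q * q.out)

theorem per_dvd [Fintype G] (H : Subgroup G) (g : G) (q : G ⧸ H) :
    per H g q ∣ Fintype.card G := by
  rw [← MulAction.pow_smul_eq_iff_minimalPeriod_dvd, pow_card_eq_one, one_smul]

theorem inner [Fintype G] [CharZero E] (H : Subgroup G) (ψ : H →* E) (g : G) {l : E}
    (hl : l ^ Fintype.card G = 1) (q : G ⧸ H) [Decidable (l ^ per H g q = zz H ψ g q)] :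
    (Fintype.card G : E)⁻¹ * ∑ k ∈ Finset.range (Fintype.card G),
      ext0 H ψ (q.out⁻¹ * g ^ k * q.out) * (l ^ k)⁻¹ =
    if l ^ per H g q = zz H ψ g q then (per H g q : E)⁻¹ else 0 := by
  classical
  have hN0 : 0 < Fintype.card G := Fintype.card_pos
  have he := per_dvd H g q
  have he0 : 0 < per H g q := Nat.pos_of_dvd_of_pos he hN0
  have hmem : q.out⁻¹ * g ^ per H g q * q.out ∈ H := by
    rw [mem_iff_smul]
    exact (MulAction.pow_smul_eq_iff_minimalPeriod_dvd.2 dvd_rfl).symm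
  have hl0 : l ≠ 0 := by
    rintro rfl
    rw [zero_pow hN0.ne'] at hl
    exact zero_ne_one hl
  rw [sum_mul he he0]
  · have h1 : ∀ j : ℕ, ext0 H ψ (q.out⁻¹ * g ^ (per H g q * j) * q.out) *
        (l ^ (per H g q * j))⁻¹ = (zz H ψ g q * (l ^ per H g q)⁻¹) ^ j := by
      intro j
      rw [mul_pow, inv_pow, ← pow_mul, zz, ← ext0_pow ψ hmem, conj_pow', ← pow_mul]
    rw [Finset.sum_congr rfl fun j _ => h1 j, sum_pow]
    · have h2 : (zz H ψ g q * (l ^ per H g q)⁻¹ = 1) ↔ l ^ per H g q = zz H ψ g q := by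
        rw [mul_inv_eq_one₀ (pow_ne_zero _ hl0), eq_comm]
      rw [if_congr h2 rfl rfl, mul_ite, mul_zero]
      congr 1
      rw [Nat.cast_div he (Nat.cast_ne_zero.2 he0.ne')]
      have h3 : (Fintype.card G : E) ≠ 0 := Nat.cast_ne_zero.2 hN0.ne'
      field_simp
    · rw [← h1, Nat.mul_div_cancel' he, pow_card_eq_one, hl, mul_one, inv_mul_cancel, ext0_one,
        inv_one, one_mul]
  · intro k hk
    rw [ext0_not, zero_mul]
    rw [mem_iff_smul]
    intro h
    exact hk (MulAction.pow_smul_eq_iff_minimalPeriod_dvd.1 h.symm)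

theorem per_const [Finite G] (H : Subgroup G) (g : G) {q b : G ⧸ H}
    (h : q ∈ MulAction.orbit (Subgroup.zpowers g) b) : per H g q = per H g b := by
  obtain ⟨⟨_, i, rfl⟩, rfl⟩ := h
  have h0 : ∀ n : ℕ, g ^ n • g ^ i • b = g ^ i • g ^ n • b := by
    intro n
    rw [smul_smul, smul_smul, ← zpow_natCast, ← zpow_add, ← zpow_add, add_comm]
  have h1 : ∀ n : ℕ, per H g (g ^ i • b) ∣ n ↔ per H g b ∣ n := by
    intro n
    rw [← MulAction.pow_smul_eq_iff_minimalPeriod_dvd, ← MulAction.pow_smul_eq_iff_minimalPeriod_dvd,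
      h0]
    exact (MulAction.injective (g ^ i)).eq_iff
  exact Nat.dvd_antisymm ((h1 _).2 dvd_rfl) ((h1 _).1 dvd_rfl)

theorem zz_const [Finite G] (H : Subgroup G) (ψ : H →* E) (g : G) {q b : G ⧸ H}
    (h : q ∈ MulAction.orbit (Subgroup.zpowers g) b) : zz H ψ g q = zz H ψ g b := by
  have hp := per_const H g h
  rw [zz, zz, hp]
  obtain ⟨⟨_, i, rfl⟩, hi⟩ := h
  have h1 : (g ^ i * b.out)⁻¹ * q.out ∈ H := by
    rw [← QuotientGroup.eq, QuotientGroup.out_eq', ← hi]
    conv_rhs => rw [← QuotientGroup.out_eq' b]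
    rfl
  have h2 := ext0_conj ψ (b.out⁻¹ * g ^ per H g b * b.out) h1
  rw [← h2]
  congr 1
  have h3 : g ^ (-i) * g ^ per H g b * g ^ i = g ^ per H g b := by
    rw [← zpow_natCast, ← zpow_add, ← zpow_add]
    congr 1
    ring
  calc q.out⁻¹ * g ^ per H g b * q.out
      = q.out⁻¹ * g ^ i * (g ^ (-i) * g ^ per H g b * g ^ i) * (g ^ (-i) * q.out) := by group
    _ = q.out⁻¹ * g ^ i * g ^ per H g b * (g ^ (-i) * q.out) := by rw [h3]
    _ = _ := by group

end S1a

open S1a in
theorem s1aRow : S1a := by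
  intro G _ _ E _ _ H ψ g l hl
  classical
  have iF : Fintype (G ⧸ H) := Fintype.ofFinite _
  have h1 : mult (ind H ψ) g l = ∑ q : G ⧸ H, (Fintype.card G : E)⁻¹ *
      ∑ k ∈ Finset.range (Fintype.card G), ext0 H ψ (q.out⁻¹ * g ^ k * q.out) * (l ^ k)⁻¹ := by
    unfold mult
    rw [← Finset.mul_sum, Finset.sum_comm]
    congr 1
    refine Finset.sum_congr rfl fun k _ => ?_
    rw [ind_sum_out, Finset.sum_mul]
  rw [h1, Finset.sum_congr rfl fun q _ => inner H ψ g hl q]
  rw [← Finset.sum_fiberwise Finset.univ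
    (fun q : G ⧸ H => (Quotient.mk'' q : Quotient (MulAction.orbitRel (Subgroup.zpowers g) (G ⧸ H))))]
  refine Finset.sum_congr (by ext; simp) fun o _ => ?_
  have h2 : ∀ q : G ⧸ H, (Quotient.mk'' q : Quotient (MulAction.orbitRel (Subgroup.zpowers g)
      (G ⧸ H))) = o ↔ q ∈ MulAction.orbit (Subgroup.zpowers g) o.out := by
    intro q
    have h3 := MulAction.orbitRel.Quotient.mem_orbit (G := Subgroup.zpowers g) (a := q) (x := o)
    rw [← h3, MulAction.orbitRel.Quotient.orbit_eq_orbit_out o Quotient.out_eq']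
  have h4 : ∀ q ∈ Finset.univ.filter (fun q : G ⧸ H => (Quotient.mk'' q : Quotient
      (MulAction.orbitRel (Subgroup.zpowers g) (G ⧸ H))) = o),
      (if l ^ per H g q = zz H ψ g q then (per H g q : E)⁻¹ else 0) =
        if l ^ per H g o.out = zz H ψ g o.out then (per H g o.out : E)⁻¹ else 0 := by
    intro q hq
    rw [Finset.mem_filter] at hq
    have h5 := (h2 q).1 hq.2
    rw [per_const H g h5, zz_const H ψ g h5]
  rw [Finset.sum_congr rfl h4, Finset.sum_const]
  have h6 : (Finset.univ.filter (fun q : G ⧸ H => (Quotient.mk'' q : Quotient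
      (MulAction.orbitRel (Subgroup.zpowers g) (G ⧸ H))) = o)).card = per H g o.out := by
    have i2 : Fintype (MulAction.orbit (Subgroup.zpowers g) o.out) := Fintype.ofFinite _
    rw [per, MulAction.minimalPeriod_eq_card, ← Set.toFinset_card]
    congr 1
    ext q
    rw [Finset.mem_filter, Set.mem_toFinset]
    exact ⟨fun h => (h2 q).1 h.2, fun h => ⟨Finset.mem_univ _, (h2 q).2 h⟩⟩
  have h7 : (per H g o.out : E) ≠ 0 :=
    Nat.cast_ne_zero.2 (Nat.pos_of_dvd_of_pos (per_dvd H g o.out) Fintype.card_pos).ne'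
  have h8 : zz H ψ g o.out = loc H ψ g o := by
    unfold zz loc
    rw [ext0_of (QuotientGroup.out_conj_pow_minimalPeriod_mem H g o.out)]
  rw [h6, nsmul_eq_mul, mul_ite, mul_zero, mul_inv_cancel₀ h7, h8]

end

end Pool.Agent.GC

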