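import Pool.Agent.Lib.GC.Rows

/-!
# Row S1b: the distribution relation
-/

namespace Pool.Agent.GC

noncomputable section

theorem ang_exp (t : ℝ) (h0 : 0 ≤ t) (h1 : t < 1) :
    ang (Complex.exp ((2 * Real.pi * t : ℝ) * Complex.I)) = t := by
  unfold ang
  rw [Complex.arg_exp_mul_I]
  have hpi : (2 * Real.pi) ≠ 0 := by positivity
  unfold toIocMod
  have : (2 * Real.pi * t - toIocDiv (mul_pos two_pos Real.pi_pos) (-Real.pi) (2 * Real.pi * t) •
      (2 * Real.pi)) / (2 * Real.pi) =
      t - (toIocDiv (mul_pos two_pos Real.pi_pos) (-Real.pi) (2 * Real.pi * t) : ℤ) := by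
    rw [zsmul_eq_mul]
    field_simp
  rw [this, Int.fract_sub_intCast, Int.fract_eq_self.mpr ⟨h0, h1⟩]

/-- A generator of the `N`-th roots of unity with the expected angles. -/
theorem exists_gen {E : Type} [Field E] (φ : E →+* ℂ) (N : ℕ) (hN : N ≠ 0)
    (h : ∃ ζ : E, IsPrimitiveRoot ζ N) :
    ∃ ζ : E, IsPrimitiveRoot ζ N ∧ ∀ a : ℕ, a < N → ang (φ (ζ ^ a)) = (a : ℝ) / N := by
  have : NeZero N := ⟨hN⟩
  obtain ⟨ζ, hζ⟩ := h
  have h1 : IsPrimitiveRoot (φ ζ) N := hζ.map_of_injective φ.injective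
  have h2 := Complex.isPrimitiveRoot_exp N hN
  obtain ⟨k, -, hk⟩ := h1.eq_pow_of_pow_eq_one h2.pow_eq_one
  refine ⟨ζ ^ k, ?_, ?_⟩
  · refine IsPrimitiveRoot.of_map_of_injective (f := φ) ?_ φ.injective
    rw [map_pow, hk]
    exact h2
  · intro a ha
    have hN' : (0 : ℝ) < N := by exact_mod_cast Nat.pos_of_ne_zero hN
    have e1 : φ ((ζ ^ k) ^ a) = Complex.exp ((2 * Real.pi * ((a : ℝ) / N) : ℝ) * Complex.I) := by
      rw [map_pow, map_pow, hk, ← Complex.exp_nat_mul]
      congr 1
      push_cast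
      ring
    rw [e1, ang_exp _ (by positivity)]
    rw [div_lt_one hN']
    exact_mod_cast ha

theorem sum_fib {E : Type} [Field E] (φ : E →+* ℂ) (N e : ℕ) (hN : N ≠ 0) (he : e ∣ N)
    (h : ∃ ζ : E, IsPrimitiveRoot ζ N) (z : E) (hz : z ^ (N / e) = 1)
    [DecidablePred fun l : E => l ^ e = z] :
    ∑ l ∈ (Polynomial.nthRootsFinset N (1 : E)).filter (fun l => l ^ e = z),
      (2 * ang (φ l) - 1 : ℝ) = 2 * ang (φ z) - 1 := by
  classical
  obtain ⟨ζ, hζ, hang⟩ := exists_gen φ N hN h
  have : NeZero N := ⟨hN⟩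
  obtain ⟨M, rfl⟩ := he
  have he0 : e ≠ 0 := by rintro rfl; simp at hN
  have hM0 : M ≠ 0 := by rintro rfl; simp at hN
  have hpe : 0 < e := Nat.pos_of_ne_zero he0
  have hpM : 0 < M := Nat.pos_of_ne_zero hM0
  rw [Nat.mul_div_cancel_left M hpe] at hz
  -- `z = ζ ^ (e b)`
  have hzN : z ^ (e * M) = 1 := by rw [mul_comm, pow_mul, hz, one_pow]
  obtain ⟨c, hc, hcz⟩ := hζ.eq_pow_of_pow_eq_one hzN
  have hec : e ∣ c := by
    have h3 : ζ ^ (c * M) = 1 := by rw [pow_mul, hcz, hz]
    have h4 := (hζ.pow_eq_one_iff_dvd _).1 h3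
    exact Nat.dvd_of_mul_dvd_mul_right hpM h4
  obtain ⟨b, rfl⟩ := hec
  have hb : b < M := Nat.lt_of_mul_lt_mul_left hc
  have hset : (Polynomial.nthRootsFinset (e * M) (1 : E)).filter (fun l => l ^ e = z) =
      (Finset.range e).image (fun j => ζ ^ (b + M * j)) := by
    ext l
    rw [Finset.mem_filter, Polynomial.mem_nthRootsFinset (Nat.pos_of_ne_zero hN),
      Finset.mem_image]
    constructor
    · rintro ⟨h5, h6⟩
      obtain ⟨a, ha, hal⟩ := hζ.eq_pow_of_pow_eq_one h5
      rw [← hal, ← hcz, ← pow_mul] at h6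
      have h7 : a * e ≡ e * b [MOD e * M] := by
        have hN' := Nat.pos_of_ne_zero hN
        rw [← pow_mod_orderOf, ← pow_mod_orderOf ζ (e * b), ← hζ.eq_orderOf] at h6
        exact hζ.pow_inj (Nat.mod_lt _ hN') (Nat.mod_lt _ hN') h6
      have h8 : a ≡ b [MOD M] := by
        rw [mul_comm a e] at h7
        exact Nat.ModEq.mul_left_cancel' he0 h7
      have h9 : a % M = b := by
        rw [h8, Nat.mod_eq_of_lt hb]
      refine ⟨a / M, ?_, ?_⟩
      · rw [Finset.mem_range]
        exact Nat.div_lt_of_lt_mul (by rw [mul_comm]; exact ha)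
      · rw [← hal]
        congr 1
        rw [← h9]
        exact Nat.mod_add_div a M
    · rintro ⟨j, hj, rfl⟩
      constructor
      · rw [← pow_mul, mul_comm, pow_mul, hζ.pow_eq_one, one_pow]
      · rw [← hcz, ← pow_mul, add_mul, pow_add, mul_comm b e]
        have : ζ ^ (M * j * e) = 1 := by
          rw [show M * j * e = (e * M) * j by ring, pow_mul, hζ.pow_eq_one, one_pow]
        rw [this, mul_one]
  have hlt : ∀ j ∈ Finset.range e, b + M * j < e * M := by
    intro j hj
    rw [Finset.mem_range] at hj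
    calc b + M * j < M + M * j := by omega
      _ = M * (j + 1) := by ring
      _ ≤ M * e := Nat.mul_le_mul_left _ hj
      _ = e * M := mul_comm _ _
  rw [hset, Finset.sum_image]
  · rw [Finset.sum_congr rfl (fun j hj => by rw [hang _ (hlt j hj)])]
    rw [← hcz, hang _ hc]
    push_cast
    have hM' : (M : ℝ) ≠ 0 := by exact_mod_cast hM0
    have he' : (e : ℝ) ≠ 0 := by exact_mod_cast he0
    have h10 : ∀ j : ℕ, 2 * (((b : ℝ) + M * j) / (e * M)) - 1 =
        (2 * b / (e * M) - 1) + 2 / e * j := by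
      intro j
      field_simp
      ring
    rw [Finset.sum_congr rfl (fun j _ => h10 j), Finset.sum_add_distrib, Finset.sum_const,
      Finset.card_range, ← Finset.mul_sum, nsmul_eq_mul]
    have h11 : ∀ e : ℕ, ∑ j ∈ Finset.range e, (j : ℝ) = e * (e - 1) / 2 := by
      clear * -
      intro e
      induction e with
      | zero => simp
      | succ n ih =>
        rw [Finset.sum_range_succ, ih]
        push_cast
        ring
    rw [h11]
    field_simp
    ring
  · intro j hj j' hj' hjj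
    have := hζ.pow_inj (hlt j hj) (hlt j' hj') hjj
    have h12 : M * j = M * j' := by omega
    exact Nat.eq_of_mul_eq_mul_left hpM h12

open Classical in
theorem s1bRow : S1b := by
  intro E _ φ N e hN he h z hz
  have key := sum_fib φ N e hN he h z hz
  have key' : ∑ l ∈ (Polynomial.nthRootsFinset N (1 : E)).filter (fun l => l ^ e = z),
      ((2 * ang (φ l) - 1 : ℝ) : ℂ) = ((2 * ang (φ z) - 1 : ℝ) : ℂ) := by
    rw [← key]
    push_cast
    rfl
  have hang1 : ang (φ 1) = 0 := by
    rw [map_one]; unfold ang; simp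
  unfold dev
  by_cases hz1 : z = 1
  · subst hz1
    rw [if_pos rfl, Finset.filter_erase]
    have hmem : (1 : E) ∈ (Polynomial.nthRootsFinset N (1 : E)).filter (fun l => l ^ e = 1) := by
      rw [Finset.mem_filter, Polynomial.mem_nthRootsFinset (Nat.pos_of_ne_zero hN)]
      simp
    have := Finset.add_sum_erase _ (fun l => ((2 * ang (φ l) - 1 : ℝ) : ℂ)) hmem
    rw [key', hang1] at this
    simpa using this
  · rw [if_neg hz1, ← key', Finset.filter_erase, Finset.erase_eq_of_notMem]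
    rw [Finset.mem_filter]
    rintro ⟨-, h1⟩
    rw [one_pow] at h1
    exact hz1 h1.symm

end

end Pool.Agent.GC
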