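import Pool.Agent.Lib.GC.Rows

/-!
# Row S2: the product of the local monodromies of the linear characters is one (transfer)
-/

namespace Pool.Agent.GC

open Classical in
/-- The product of the local monodromies above one branch point is the transfer. -/
theorem prod_loc_eq {G : Type} [Group G] [Fintype G] {E : Type} [Field E] (H : Subgroup G)
    (ψ : H →* E) (x : G) :
    ((Finset.univ : Finset (Quotient (MulAction.orbitRel (Subgroup.zpowers x) (G ⧸ H)))).val.map
      (loc H ψ x)).prod = ((MonoidHom.transfer (MonoidHom.toHomUnits ψ) x : Eˣ) : E) := by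
  rw [MonoidHom.transfer_eq_prod_quotient_orbitRel_zpowers_quot, Units.coe_prod]
  rfl

/-- Dropping ones does not change the product of a multiset. -/
theorem prod_filter_ne_one {E : Type} [Field E] (s : Multiset E)
    [DecidablePred fun z : E => z ≠ 1] :
    (s.filter fun z : E => z ≠ 1).prod = s.prod := by
  induction s using Multiset.induction_on with
  | empty => simp
  | cons a s ih =>
    by_cases h : a = 1
    · subst h
      rw [Multiset.filter_cons_of_neg (p := fun z : E => z ≠ 1) _ (not_not.2 rfl), ih,
        Multiset.prod_cons, one_mul]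
    · rw [Multiset.filter_cons_of_pos (p := fun z : E => z ≠ 1) _ h, Multiset.prod_cons, Multiset.prod_cons, ih]

/-- The product of a list sum of multisets. -/
theorem prod_list_sum {E : Type} [Field E] (l : List (Multiset E)) :
    l.sum.prod = (l.map Multiset.prod).prod := by
  induction l with
  | nil => simp
  | cons a l ih => rw [List.sum_cons, Multiset.prod_add, ih, List.map_cons, List.prod_cons]

/-- Members of a list sum of multisets. -/
theorem mem_list_sum {E : Type} {z : E} (l : List (Multiset E)) (h : z ∈ l.sum) :
    ∃ s ∈ l, z ∈ s := by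
  induction l with
  | nil => simp at h
  | cons a l ih =>
    rw [List.sum_cons, Multiset.mem_add] at h
    rcases h with h | h
    · exact ⟨a, by simp, h⟩
    · obtain ⟨s, hs, hz⟩ := ih h
      exact ⟨s, by simp [hs], hz⟩

open Classical in
/-- Row S2. -/
theorem s2Row : S2 := by
  intro G _ _ E _ H ψ g hg
  refine ⟨?_, ?_⟩
  · unfold locs
    rw [prod_filter_ne_one, prod_list_sum, List.map_map]
    have h1 : (g.map fun x => ((MonoidHom.transfer (MonoidHom.toHomUnits ψ) x : Eˣ) : E)).prod =
        ((MonoidHom.transfer (MonoidHom.toHomUnits ψ) g.prod : Eˣ) : E) := by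
      rw [map_list_prod]
      change _ = (Units.coeHom E) _
      rw [map_list_prod, List.map_map]
      rfl
    have h2 : MonoidHom.transfer (MonoidHom.toHomUnits ψ) g.prod = 1 :=
      MonoidHom.mem_ker.1 (Abelianization.commutator_subset_ker _ hg)
    rw [h2, Units.val_one] at h1
    rw [← h1]
    congr 1
    refine List.map_congr_left fun x _ => ?_
    exact prod_loc_eq H ψ x
  · intro z hz
    unfold locs at hz
    rw [Multiset.mem_filter] at hz
    refine ⟨hz.2, ?_⟩
    obtain ⟨s, hs, hzs⟩ := mem_list_sum _ hz.1
    obtain ⟨x, _, rfl⟩ := List.mem_map.1 hs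
    obtain ⟨q, _, rfl⟩ := Multiset.mem_map.1 hzs
    unfold loc
    rw [← map_pow]
    have : (⟨q.out.out⁻¹ * x ^ Function.minimalPeriod (x • ·) q.out * q.out.out,
        QuotientGroup.out_conj_pow_minimalPeriod_mem H x q.out⟩ : H) ^ Fintype.card G = 1 := by
      apply Subtype.ext
      rw [Subgroup.coe_pow, Subgroup.coe_one]
      exact pow_card_eq_one
    rw [this, map_one]

end Pool.Agent.GC
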