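import Pool.Agent.Lib.GC.Rows

/-!
# Row S3: angles of roots of unity
-/

namespace Pool.Agent.GC

theorem ang_nonneg (z : ℂ) : 0 ≤ ang z := Int.fract_nonneg _

theorem ang_lt_one (z : ℂ) : ang z < 1 := Int.fract_lt_one _

/-- A complex number of absolute value one is the exponential of its angle. -/
theorem exp_ang {z : ℂ} (hz : ‖z‖ = 1) :
    Complex.exp ((ang z : ℂ) * (2 * Real.pi * Complex.I)) = z := by
  have hpi : (Real.pi : ℂ) ≠ 0 := by exact_mod_cast Real.pi_ne_zero
  have h1 : Complex.exp (z.arg * Complex.I) = z := by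
    have := Complex.norm_mul_exp_arg_mul_I z
    rwa [hz, Complex.ofReal_one, one_mul] at this
  have h2 : ((ang z : ℝ) : ℂ) * (2 * Real.pi * Complex.I) =
      z.arg * Complex.I + ((-⌊z.arg / (2 * Real.pi)⌋ : ℤ) : ℂ) * (2 * Real.pi * Complex.I) := by
    have h3 : ang z = z.arg / (2 * Real.pi) - ⌊z.arg / (2 * Real.pi)⌋ := by
      unfold ang
      rw [Int.fract]
    rw [h3]
    push_cast
    field_simp
    ring
  rw [h2, Complex.exp_add, Complex.exp_int_mul_two_pi_mul_I, mul_one, h1]

/-- Two real numbers with the same exponential differ by an integer. -/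
theorem exp_real_eq {a b : ℝ} (h : Complex.exp ((a : ℂ) * (2 * Real.pi * Complex.I)) =
    Complex.exp ((b : ℂ) * (2 * Real.pi * Complex.I))) : ∃ n : ℤ, a = b + n := by
  obtain ⟨n, hn⟩ := Complex.exp_eq_exp_iff_exists_int.1 h
  refine ⟨n, ?_⟩
  have hpi : (2 * Real.pi * Complex.I : ℂ) ≠ 0 := Complex.two_pi_I_ne_zero
  rw [← add_mul] at hn
  have := mul_right_cancel₀ hpi hn
  exact_mod_cast this

/-- Roots of unity have absolute value one. -/
theorem norm_root {E : Type} [Field E] (φ : E →+* ℂ) {N : ℕ} (hN : N ≠ 0) {l : E}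
    (hl : l ^ N = 1) : ‖φ l‖ = 1 := by
  refine Complex.norm_eq_one_of_pow_eq_one (n := N) ?_ hN
  rw [← map_pow, hl, map_one]

theorem map_ne_one' {E : Type} [Field E] (φ : E →+* ℂ) {l : E} (hl : l ≠ 1) : φ l ≠ 1 := by
  intro h
  exact hl (φ.injective (by rw [h, map_one]))

/-- The angle of a root of unity other than one is positive. -/
theorem ang_pos {z : ℂ} (hz : ‖z‖ = 1) (h1 : z ≠ 1) : 0 < ang z := by
  rcases (ang_nonneg z).lt_or_eq with h | h
  · exact h
  · exfalso
    apply h1
    rw [← exp_ang hz, ← h]
    simp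

open Classical in
/-- Row S3. -/
theorem s3Row : S3 := by
  intro E _ φ N hN
  refine ⟨?_, ?_⟩
  · intro l hl
    by_cases h1 : l = 1
    · subst h1
      simp [dev]
    · have h1' : l⁻¹ ≠ 1 := by simpa using h1
      have hl' : (l⁻¹) ^ N = 1 := by rw [inv_pow, hl, inv_one]
      unfold dev
      rw [if_neg h1, if_neg h1']
      have ha := norm_root φ hN hl
      have hb := norm_root φ hN hl'
      have hap := ang_pos ha (map_ne_one' φ h1)
      have hbp := ang_pos hb (map_ne_one' φ h1')
      have key : Complex.exp (((ang (φ l) + ang (φ l⁻¹) : ℝ) : ℂ) * (2 * Real.pi * Complex.I)) =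
          Complex.exp (((0 : ℝ) : ℂ) * (2 * Real.pi * Complex.I)) := by
        push_cast
        rw [add_mul, Complex.exp_add, exp_ang ha, exp_ang hb, ← map_mul, zero_mul,
          Complex.exp_zero, mul_inv_cancel₀ (by rintro rfl; simp [hN] at hl), map_one]
      obtain ⟨n, hn⟩ := exp_real_eq key
      have h2 : (n : ℝ) < 2 := by linarith [ang_lt_one (φ l), ang_lt_one (φ l⁻¹)]
      have h3 : (0 : ℝ) < n := by linarith
      have h4 : n = 1 := by
        have h2' : n < 2 := by exact_mod_cast h2
        have h3' : 0 < n := by exact_mod_cast h3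
        omega
      subst h4
      have h5 : ang (φ l⁻¹) = 1 - ang (φ l) := by
        push_cast at hn
        linarith
      rw [h5]
      push_cast
      ring
  · intro l m hl hm h1 h2 h3
    have hlm : (l * m) ^ N = 1 := by rw [mul_pow, hl, hm, one_mul]
    unfold dev
    rw [if_neg h1, if_neg h2, if_neg h3]
    have ha := norm_root φ hN hl
    have hb := norm_root φ hN hm
    have hc := norm_root φ hN hlm
    have hcp := ang_pos hc (map_ne_one' φ h3)
    have hap := ang_pos ha (map_ne_one' φ h1)
    have hbp := ang_pos hb (map_ne_one' φ h2)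
    have key : Complex.exp (((ang (φ l) + ang (φ m) : ℝ) : ℂ) * (2 * Real.pi * Complex.I)) =
        Complex.exp (((ang (φ (l * m)) : ℝ) : ℂ) * (2 * Real.pi * Complex.I)) := by
      push_cast
      rw [add_mul, Complex.exp_add, exp_ang ha, exp_ang hb, exp_ang hc, map_mul]
    obtain ⟨n, hn⟩ := exp_real_eq key
    have hc1 := ang_lt_one (φ (l * m))
    have ha1 := ang_lt_one (φ l)
    have hb1 := ang_lt_one (φ m)
    split_ifs with h
    · have e1 : (n : ℝ) < 1 := by linarith
      have e2 : (-1 : ℝ) < n := by linarith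
      have e3 : n = 0 := by
        have e1' : n < 1 := by exact_mod_cast e1
        have e2' : -1 < n := by exact_mod_cast e2
        omega
      subst e3
      have h5 : ang (φ (l * m)) = ang (φ l) + ang (φ m) := by
        push_cast at hn
        linarith
      rw [h5]
      push_cast
      ring
    · have e1 : (n : ℝ) < 2 := by linarith
      have e2 : (0 : ℝ) < n := by linarith
      have e3 : n = 1 := by
        have e1' : n < 2 := by exact_mod_cast e1
        have e2' : 0 < n := by exact_mod_cast e2
        omega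
      subst e3
      have h5 : ang (φ (l * m)) = ang (φ l) + ang (φ m) - 1 := by
        push_cast at hn
        linarith
      rw [h5]
      push_cast
      ring

end Pool.Agent.GC
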