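import Pool.Agent.Lib.CMN.FinThm
import Pool.Agent.Lib.GC.Asm
import Pool.Agent.Lib.GC.B1
import Pool.Agent.Lib.GC.B2
import Pool.Agent.Lib.GC.B3
import Pool.Agent.Lib.GC.DU
import Pool.Agent.Lib.GC.S0
import Pool.Agent.Lib.GC.S1
import Pool.Agent.Lib.GC.S1a
import Pool.Agent.Lib.GC.S1b
import Pool.Agent.Lib.GC.S2
import Pool.Agent.Lib.GC.S3

/-!
# GC: the final theorem
-/

set_option autoImplicit false

namespace Pool.Agent.GC

/-- Brauer's induction theorem: every character is an integral combination of characters induced
from linear characters of subgroups -/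
theorem brauer : BRAUER := b2_of b1Row (b3_of hypRow)

theorem final : FINAL :=
  final_of brauer duRow s0Row (s1_of s1aRow s1bRow) s2Row s3Row CMN.final

end Pool.Agent.GC
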