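import Pool.Agent.Lib.GC.Rows

/-!
# Induction of functions from subgroups: additivity and transitivity.  helper44.
-/

namespace Pool.Agent.GC

noncomputable section

variable {G : Type} [Group G] [Fintype G] {E : Type} [Field E]

open Classical in
/-- extension by zero -/
def ext0 (K : Subgroup G) (f : K → E) (x : G) : E := if h : x ∈ K then f ⟨x, h⟩ else 0

omit [Fintype G] in
theorem ext0_of {K : Subgroup G} {f : K → E} {x : G} (h : x ∈ K) : ext0 K f x = f ⟨x, h⟩ :=
  dif_pos h

omit [Fintype G] in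
theorem ext0_not {K : Subgroup G} {f : K → E} {x : G} (h : x ∉ K) : ext0 K f x = 0 :=
  dif_neg h

theorem ind_eq (K : Subgroup G) (f : K → E) (g : G) :
    ind K f g = (Nat.card K : E)⁻¹ * ∑ x : G, ext0 K f (x⁻¹ * g * x) := rfl

theorem ind_zero (K : Subgroup G) : ind K (0 : K → E) = 0 := by
  funext g
  rw [ind_eq, Finset.sum_eq_zero, mul_zero]
  · rfl
  · intro x _
    by_cases h : x⁻¹ * g * x ∈ K
    · rw [ext0_of h]; rfl
    · rw [ext0_not h]

theorem ind_add (K : Subgroup G) (f f' : K → E) : ind K (f + f') = ind K f + ind K f' := by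
  funext g
  rw [Pi.add_apply, ind_eq, ind_eq, ind_eq, ← mul_add, ← Finset.sum_add_distrib]
  congr 1
  refine Finset.sum_congr rfl fun x _ => ?_
  by_cases h : x⁻¹ * g * x ∈ K
  · rw [ext0_of h, ext0_of h, ext0_of h]; rfl
  · rw [ext0_not h, ext0_not h, ext0_not h, add_zero]

theorem ind_neg (K : Subgroup G) (f : K → E) : ind K (-f) = -ind K f := by
  have h := ind_add K f (-f)
  rw [add_neg_cancel, ind_zero] at h
  exact (neg_eq_of_add_eq_zero_right h.symm).symm

/-- transitivity -/
theorem ind_ind [CharZero E] (K : Subgroup G) [Fintype K] (L : Subgroup K) (ψ : L → E) :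
    ind K (ind L ψ) = ind (L.map K.subtype)
      (fun y => ψ ((L.equivMapOfInjective K.subtype K.subtype_injective).symm y)) := by
  set M := L.map K.subtype with hM
  set e := L.equivMapOfInjective K.subtype K.subtype_injective with he
  set Ψ : G → E := ext0 M (fun y => ψ (e.symm y)) with hΨ
  have hMK : M ≤ K := by
    rintro _ ⟨y, -, rfl⟩
    exact y.2
  have hΨK : ∀ y : K, ext0 L ψ y = Ψ (y : G) := by
    intro y
    by_cases h : y ∈ L
    · have h' : (y : G) ∈ M := ⟨y, h, rfl⟩
      rw [ext0_of h, hΨ, ext0_of h']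
      congr 1
      rw [MulEquiv.eq_symm_apply]
      rfl
    · have h' : (y : G) ∉ M := by
        rintro ⟨z, hz, hzy⟩
        exact h (K.subtype_injective hzy ▸ hz)
      rw [ext0_not h, hΨ, ext0_not h']
  have hconj : ∀ (x : G) (k : K), x ∉ K → Ψ ((k : G)⁻¹ * x * k) = 0 := by
    intro x k hx
    refine ext0_not fun h => hx ?_
    have h1 := hMK h
    have h2 : x = (k : G) * ((k : G)⁻¹ * x * k) * (k : G)⁻¹ := by group
    rw [h2]
    exact K.mul_mem (K.mul_mem k.2 h1) (K.inv_mem k.2)
  have key : ∀ x : G, ext0 K (ind L ψ) x =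
      (Nat.card L : E)⁻¹ * ∑ k : K, Ψ ((k : G)⁻¹ * x * k) := by
    intro x
    by_cases hx : x ∈ K
    · rw [ext0_of hx, ind_eq]
      congr 1
      refine Finset.sum_congr rfl fun k _ => ?_
      rw [hΨK]
      rfl
    · rw [ext0_not hx, Finset.sum_eq_zero fun k _ => hconj x k hx, mul_zero]
  have hcard : Nat.card M = Nat.card L := (Nat.card_congr e.toEquiv).symm
  funext g
  rw [ind_eq, ind_eq, hcard]
  simp only [key]
  rw [← Finset.mul_sum, Finset.sum_comm]
  have h3 : ∀ k : K, ∑ x : G, Ψ ((k : G)⁻¹ * (x⁻¹ * g * x) * k) = ∑ y : G, Ψ (y⁻¹ * g * y) := by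
    intro k
    refine Fintype.sum_equiv (Equiv.mulRight (k : G)) _ _ fun x => ?_
    congr 1
    simp only [Equiv.coe_mulRight]
    group
  rw [Finset.sum_congr rfl fun k _ => h3 k, Finset.sum_const, Finset.card_univ, nsmul_eq_mul,
    ← Nat.card_eq_fintype_card]
  have hK : (Nat.card K : E) ≠ 0 := Nat.cast_ne_zero.mpr Nat.card_pos.ne'
  field_simp
  rfl

/-- functions induced from virtual monomial functions are virtual monomial -/
theorem ind_mem_vir [CharZero E] (K : Subgroup G) [Fintype K] {f : K → E} (hf : f ∈ Vir K E) :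
    ind K f ∈ Vir G E := by
  unfold Vir at hf
  induction hf using AddSubgroup.closure_induction with
  | mem f h =>
    obtain ⟨L, ψ, rfl⟩ := h
    rw [ind_ind]
    refine AddSubgroup.subset_closure ⟨L.map K.subtype,
      ψ.comp (L.equivMapOfInjective K.subtype K.subtype_injective).symm.toMonoidHom, rfl⟩
  | zero => rw [ind_zero]; exact zero_mem _
  | add f f' _ _ h h' => rw [ind_add]; exact add_mem h h'
  | neg f _ h => rw [ind_neg]; exact neg_mem h

/-- a linear character is induced from the whole group -/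
theorem lin_mem_vir [CharZero E] (ψ : G →* E) : (fun g => ψ g) ∈ Vir G E := by
  refine AddSubgroup.subset_closure ⟨⊤, ψ.comp (⊤ : Subgroup G).subtype, ?_⟩
  funext g
  rw [ind_eq]
  have h1 : ∀ x : G, ext0 (⊤ : Subgroup G) (ψ.comp (⊤ : Subgroup G).subtype) (x⁻¹ * g * x) =
      ψ g := by
    intro x
    rw [ext0_of (Subgroup.mem_top _)]
    change ψ (x⁻¹ * g * x) = ψ g
    rw [map_mul, map_mul, mul_comm, ← mul_assoc, ← map_mul, mul_inv_cancel, map_one, one_mul]
  rw [Finset.sum_congr rfl fun x _ => h1 x, Finset.sum_const, Finset.card_univ, nsmul_eq_mul,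
    Subgroup.card_top, Nat.card_eq_fintype_card, ← mul_assoc, inv_mul_cancel₀, one_mul]
  exact Nat.cast_ne_zero.mpr Fintype.card_ne_zero

end

end Pool.Agent.GC
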