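import Pool.Agent.Lib.GC.Fin

/-!
# GC: the general Hodge conjecture for the determinant lines
-/

set_option autoImplicit false

namespace Pool.Agent.GC

open Finset

variable {F : Type} [Field F] [NumberField F]

/-- the value of `sigCM` -/
theorem sigCM_int (v : F →+* ℝ) (m : Multiset (CMN.CMType F)) :
    ∃ n : ℤ, sigCM v m = n ∧ |n| ≤ m.card ∧ Even ((m.card : ℤ) - n) := by
  have h1 := Multiset.card_eq_countP_add_countP (fun Φ : CMN.CMType F => Φ v = true) m
  have h2 : m.countP (fun Φ => ¬ (Φ v = true)) = m.countP (fun Φ => Φ v = false) := by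
    apply Multiset.countP_congr rfl
    intro Φ _
    simp
  rw [h2] at h1
  refine ⟨(m.countP (fun Φ => Φ v = true) : ℤ) - m.countP (fun Φ => Φ v = false), ?_, ?_, ?_⟩
  · rw [sigCM_eq]
    push_cast
    ring
  · rw [abs_le]
    constructor <;> omega
  · rw [h1]
    refine ⟨m.countP (fun Φ => Φ v = false), ?_⟩
    push_cast
    ring

/-- a multiset of `l` CM types with prescribed values -/
theorem exists_types (l : ℕ) (n : (F →+* ℝ) → ℤ) (h1 : ∀ v, |n v| ≤ l)
    (h2 : ∀ v, Even ((l : ℤ) - n v)) :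
    ∃ m : Multiset (CMN.CMType F), m.card = l ∧ ∀ v, sigCM v m = n v := by
  classical
  -- the number of types which are true at `v` is `(l + n v) / 2`
  have h3 : ∀ v, ∃ k : ℕ, k ≤ l ∧ (2 * k : ℤ) = l + n v := by
    intro v
    obtain ⟨j, hj⟩ := h2 v
    have h4 := abs_le.1 (h1 v)
    refine ⟨(l - j).toNat, ?_, ?_⟩
    · omega
    · omega
  choose k hk1 hk2 using h3
  refine ⟨(Finset.range l).val.map fun i => fun v => decide (i < k v), by simp, fun v => ?_⟩
  unfold sigCM
  rw [Multiset.map_map]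
  change ∑ i ∈ Finset.range l, (if decide (i < k v) = true then (1 : ℂ) else -1) = n v
  simp only [decide_eq_true_eq]
  have h5 : ∀ i ∈ Finset.range l, (if i < k v then (1 : ℂ) else -1) =
      2 * (if i < k v then 1 else 0) - 1 := by
    intro i _
    split_ifs <;> norm_num
  rw [Finset.sum_congr rfl h5, Finset.sum_sub_distrib, ← Finset.mul_sum, Finset.sum_boole]
  have h6 : (Finset.range l).filter (fun i => i < k v) = Finset.range (k v) := by
    ext i
    simp only [Finset.mem_filter, Finset.mem_range]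
    constructor
    · exact fun h => h.2
    · exact fun h => ⟨lt_of_lt_of_le h (hk1 v), h⟩
  rw [h6, Finset.card_range, Finset.sum_const, Finset.card_range, nsmul_eq_mul, mul_one]
  have h7 := hk2 v
  have h8 : ((2 * k v : ℤ) : ℂ) = ((l + n v : ℤ) : ℂ) := by rw [h7]
  push_cast at h8
  linear_combination h8

/-- the line of `(χ, T)` is a product of `l` CM lines if and only if `|p - q| ≤ l` at all
embeddings -/
theorem level (F : Type) [Field F] [NumberField F] [NumberField.IsTotallyReal F]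
    (v₁ : F →+* ℝ) (D : F) (hD : IsIntegral ℤ D) (hpos : ∀ v : F →+* ℝ, 0 < v D)
    (E : Type) [Field E] [Algebra F E] (δ : E) (hδ : δ ^ 2 = -algebraMap F E D)
    (hEF : ∀ x : E, ∃ a b : F, x = algebraMap F E a + algebraMap F E b * δ)
    (emb : (F →+* ℝ) → (E →+* ℂ)) (hemb : ∀ v x, emb v (algebraMap F E x) = (v x : ℂ))
    (hembδ : ∀ v, emb v δ = Complex.I * (√(v D) : ℂ))
    (ι : Type) [Fintype ι] [DecidableEq ι] (G : ι → Type) [∀ s, Group (G s)]
    [∀ s, Fintype (G s)] (hζ : ∀ s, ∃ ζ : E, IsPrimitiveRoot ζ (Fintype.card (G s)))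
    (g : ∀ s, List (G s)) (hg : ∀ s, (g s).prod ∈ commutator (G s))
    (χ : ∀ s, G s → E) (hχ : ∀ s, IsChar (χ s)) (T : Multiset (CMN.CMType F)) (l : ℕ) :
    (∃ m : Multiset (CMN.CMType F), m.card = l ∧ IsAlg v₁ D emb g χ 0 (T + m)) ↔
      ∀ v, ∃ n : ℤ, sig g (emb v) χ + sigCM v T = n ∧ |n| ≤ l ∧ Even ((l : ℤ) - n) := by
  have hfin := fun m => final F v₁ D hD hpos E δ hδ hEF emb hemb hembδ ι G hζ g hg χ hχ (T + m)
  constructor
  · rintro ⟨m, hm, h⟩ v
    have h1 := (hfin m).1 h v
    rw [sigCM_add] at h1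
    obtain ⟨n, hn1, hn2, hn3⟩ := sigCM_int v m
    rw [hm] at hn2 hn3
    refine ⟨-n, ?_, by rwa [abs_neg], ?_⟩
    · push_cast
      rw [← hn1]
      linear_combination h1
    · obtain ⟨j, hj⟩ := hn3
      exact ⟨l - j, by omega⟩
  · intro h
    choose n hn1 hn2 hn3 using h
    obtain ⟨m, hm, hs⟩ := exists_types l (fun v => -n v) (fun v => by rw [abs_neg]; exact hn2 v)
      (fun v => by
        obtain ⟨j, hj⟩ := hn3 v
        exact ⟨l - j, by omega⟩)
    refine ⟨m, hm, (hfin m).2 fun v => ?_⟩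
    rw [sigCM_add, hs v, ← add_assoc, hn1 v]
    push_cast
    ring

end Pool.Agent.GC
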