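import Pool.Agent.Lib.GC.Defs

/-!
# The rows

Each row is a proposition; its proof is one file `Pool/Agent/Lib/GC/<row>.lean` with the theorem
named in the comment.
-/

namespace Pool.Agent.GC

noncomputable section

/-! ## Brauer -/

/-- The functions induced from linear characters of subgroups. -/
def Mono (G E : Type) [Group G] [Fintype G] [Field E] : Set (G → E) :=
  {f | ∃ (H : Subgroup G) (ψ : H →* E), f = ind H ψ}

/-- The group generated by them. -/
def Vir (G E : Type) [Group G] [Fintype G] [Field E] : AddSubgroup (G → E) :=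
  AddSubgroup.closure (Mono G E)

/-- Hyperelementary groups: a cyclic normal subgroup of order prime to `p`, with quotient a
`p`-group. -/
def Hyp (H : Type) [Group H] : Prop :=
  ∃ p : ℕ, p.Prime ∧ ∃ C : Subgroup H, C.Normal ∧ IsCyclic C ∧ (Nat.card C).Coprime p ∧
    ∀ h : H, ∃ k : ℕ, h ^ p ^ k ∈ C

/-- The permutation character of `G / H`. -/
def perm {G : Type} [Group G] (H : Subgroup G) (g : G) : ℤ :=
  (Nat.card {q : G ⧸ H // g • q = q} : ℤ)

/-- The subgroup of integral functions generated by the `perm H`, `H` hyperelementary. -/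
def PHyp (G : Type) [Group G] : AddSubgroup (G → ℤ) :=
  AddSubgroup.closure {f | ∃ H : Subgroup G, Hyp H ∧ f = perm H}

/-- Row HY: `hypRow : HY`. -/
def HY : Prop := ∀ (H K : Type) [Group H] [Group K] [Finite H] (f : K →* H),
  Function.Injective f → Hyp H → Hyp K

/-- Row B1a (Banaschewski): `b1aRow : B1a`. -/
def B1a : Prop := ∀ (S : Type) [Fintype S] (R : AddSubgroup (S → ℤ)),
  (∀ f ∈ R, ∀ f' ∈ R, f * f' ∈ R) → (∀ s : S, ∀ p : ℕ, p.Prime → ∃ f ∈ R, ¬ (p : ℤ) ∣ f s) →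
    (1 : S → ℤ) ∈ R

/-- Row B1b (Mackey): `b1b_of : HY → B1b`. -/
def B1b : Prop := ∀ (G : Type) [Group G] [Finite G], ∀ f ∈ PHyp G, ∀ f' ∈ PHyp G,
  f * f' ∈ PHyp G

/-- Row B1c: `b1cRow : B1c`. -/
def B1c : Prop := ∀ (G : Type) [Group G] [Finite G] (g : G) (p : ℕ), p.Prime →
  ∃ H : Subgroup G, Hyp H ∧ ¬ (p : ℤ) ∣ perm H g

/-- Row B1: `b1_of : B1a → B1b → B1c → B1`. -/
def B1 : Prop := ∀ (G : Type) [Group G] [Fintype G], (1 : G → ℤ) ∈ PHyp G

/-- Row B3 (hyperelementary groups are monomial): `b3_of : HY → B3`. -/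
def B3 : Prop := ∀ (H : Type) [Group H] [Fintype H] (E : Type) [Field E] [CharZero E],
  Hyp H → (∃ N : ℕ, N ≠ 0 ∧ Fintype.card H ∣ N ∧ ∃ ζ : E, IsPrimitiveRoot ζ N) →
    ∀ χ : H → E, IsChar χ → χ ∈ Vir H E

/-- Row B2 (Brauer's theorem): `b2_of : B1 → B3 → BRAUER`. -/
def BRAUER : Prop := ∀ (G : Type) [Group G] [Fintype G] (E : Type) [Field E] [CharZero E],
  (∃ ζ : E, IsPrimitiveRoot ζ (Fintype.card G)) → ∀ χ : G → E, IsChar χ → χ ∈ Vir G E

/-- Row DU: the induced function is a character, its dual is induced. `duRow : DU`. -/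
def DU : Prop := ∀ (G : Type) [Group G] [Fintype G] (E : Type) [Field E] [CharZero E]
  (H : Subgroup G) (ψ : H →* E), IsChar (ind H ψ) ∧ dual (ind H ψ) ∈ Mono G E

/-! ## Signatures -/

open Classical in
/-- The contribution of a root of unity. -/
def dev {E : Type} [Field E] (φ : E →+* ℂ) (l : E) : ℂ :=
  if l = 1 then 0 else ((2 * ang (φ l) - 1 : ℝ) : ℂ)

/-- Row S0: `s0Row : S0`. -/
def S0 : Prop := ∀ (G : Type) [Group G] [Fintype G] (E : Type) [Field E]
  (φ : E →+* ℂ) (g : G), (∀ χ χ' : G → E, sig1 φ (χ + χ') g = sig1 φ χ g + sig1 φ χ' g) ∧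
    (∀ χ : G → E, sig1 φ (dual χ) g = -sig1 φ χ g)

open Classical in
/-- Row S1a: `s1aRow : S1a`. -/
def S1a : Prop := ∀ (G : Type) [Group G] [Fintype G] (E : Type) [Field E] [CharZero E]
  (H : Subgroup G) (ψ : H →* E) (g : G) (l : E), l ^ Fintype.card G = 1 →
  mult (ind H ψ) g l = ∑ q : Quotient (MulAction.orbitRel (Subgroup.zpowers g) (G ⧸ H)),
    if l ^ Function.minimalPeriod (g • ·) q.out = loc H ψ g q then 1 else 0

open Classical in
/-- Row S1b (distribution relation): `s1bRow : S1b`. -/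
def S1b : Prop := ∀ (E : Type) [Field E] (φ : E →+* ℂ) (N e : ℕ), N ≠ 0 → e ∣ N →
  (∃ ζ : E, IsPrimitiveRoot ζ N) → ∀ z : E, z ^ (N / e) = 1 →
  ∑ l ∈ ((Polynomial.nthRootsFinset N (1 : E)).erase 1).filter (fun l => l ^ e = z),
    ((2 * ang (φ l) - 1 : ℝ) : ℂ) = dev φ z

/-- Row S1: `s1_of : S1a → S1b → S1`. -/
def S1 : Prop := ∀ (G : Type) [Group G] [Fintype G] (E : Type) [Field E],
  (∃ ζ : E, IsPrimitiveRoot ζ (Fintype.card G)) →
  ∀ (H : Subgroup G) (ψ : H →* E) (φ : E →+* ℂ) (g : List G),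
    (g.map (sig1 φ (ind H ψ))).sum = ((locs H ψ g).map (dev φ)).sum

/-- Row S2 (transfer): `s2Row : S2`. -/
def S2 : Prop := ∀ (G : Type) [Group G] [Fintype G] (E : Type) [Field E]
  (H : Subgroup G) (ψ : H →* E) (g : List G), g.prod ∈ commutator G →
  (locs H ψ g).prod = 1 ∧ ∀ z ∈ locs H ψ g, z ≠ 1 ∧ z ^ Fintype.card G = 1

/-- Row S3 (angles of roots of unity): `s3Row : S3`. -/
def S3 : Prop := ∀ (E : Type) [Field E] (φ : E →+* ℂ) (N : ℕ), N ≠ 0 →
  (∀ l : E, l ^ N = 1 → dev φ l⁻¹ = -dev φ l) ∧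
  ∀ l m : E, l ^ N = 1 → m ^ N = 1 → l ≠ 1 → m ≠ 1 → l * m ≠ 1 →
    dev φ l + dev φ m + (if ang (φ l) + ang (φ m) < 1 then 1 else -1) = dev φ (l * m)

/-- The assembly: `final_of : BRAUER → DU → S0 → S1 → S2 → S3 → CMN.FINAL → FINAL`. -/
def ASM : Prop := BRAUER → DU → S0 → S1 → S2 → S3 → CMN.FINAL → FINAL

end

end Pool.Agent.GC
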